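import Mathlib

/-! Products over multisets of reals, logarithmic derivatives. -/

namespace Pool.Agent.R571.TI

open Polynomial Topology Filter

/-- `∏ (x - r)` -/
noncomputable def pf (R : Multiset ℝ) (x : ℝ) : ℝ := (R.map fun r => x - r).prod
/-- `∑ 1/(x - r)` -/
noncomputable def S1 (R : Multiset ℝ) (x : ℝ) : ℝ := (R.map fun r => (x - r)⁻¹).sum
/-- `∑ 1/(x - r)^2` -/
noncomputable def S2 (R : Multiset ℝ) (x : ℝ) : ℝ := (R.map fun r => ((x - r)⁻¹) ^ 2).sum
/-- the monic polynomial with roots `R` -/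
noncomputable def pp (R : Multiset ℝ) : ℝ[X] := (R.map fun r => X - C r).prod

lemma pf_cons (a : ℝ) (R : Multiset ℝ) (x : ℝ) : pf (a ::ₘ R) x = (x - a) * pf R x := by
  simp [pf]
lemma S1_cons (a : ℝ) (R : Multiset ℝ) (x : ℝ) : S1 (a ::ₘ R) x = (x - a)⁻¹ + S1 R x := by
  simp [S1]
lemma S2_cons (a : ℝ) (R : Multiset ℝ) (x : ℝ) : S2 (a ::ₘ R) x = ((x - a)⁻¹) ^ 2 + S2 R x := by
  simp [S2]
lemma pp_cons (a : ℝ) (R : Multiset ℝ) : pp (a ::ₘ R) = (X - C a) * pp R := by
  simp [pp]
lemma pf_zero (x : ℝ) : pf 0 x = 1 := by simp [pf]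
lemma S1_zero (x : ℝ) : S1 0 x = 0 := by simp [S1]
lemma S2_zero (x : ℝ) : S2 0 x = 0 := by simp [S2]
lemma pp_zero : pp 0 = 1 := by simp [pp]
lemma pf_add (A B : Multiset ℝ) (x : ℝ) : pf (A + B) x = pf A x * pf B x := by
  simp [pf]
lemma S1_add (A B : Multiset ℝ) (x : ℝ) : S1 (A + B) x = S1 A x + S1 B x := by
  simp [S1]
lemma S2_add (A B : Multiset ℝ) (x : ℝ) : S2 (A + B) x = S2 A x + S2 B x := by
  simp [S2]
lemma pf_replicate (k : ℕ) (a x : ℝ) : pf (Multiset.replicate k a) x = (x - a) ^ k := by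
  simp [pf]
lemma S1_replicate (k : ℕ) (a x : ℝ) : S1 (Multiset.replicate k a) x = k * (x - a)⁻¹ := by
  simp [S1]
lemma S2_replicate (k : ℕ) (a x : ℝ) :
    S2 (Multiset.replicate k a) x = k * ((x - a)⁻¹) ^ 2 := by
  simp [S2]

lemma eval_pp (R : Multiset ℝ) (x : ℝ) : (pp R).eval x = pf R x := by
  induction R using Multiset.induction with
  | empty => simp [pp_zero, pf_zero]
  | cons a R ih => simp [pp_cons, pf_cons, ih]

lemma pf_ne_zero {R : Multiset ℝ} {x : ℝ} (hx : ∀ r ∈ R, x ≠ r) : pf R x ≠ 0 := by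
  induction R using Multiset.induction with
  | empty => simp [pf_zero]
  | cons a R ih =>
    rw [pf_cons]
    refine mul_ne_zero (sub_ne_zero.2 (hx a (Multiset.mem_cons_self a R))) (ih fun r hr =>
      hx r (Multiset.mem_cons_of_mem hr))

lemma eval_der {R : Multiset ℝ} {x : ℝ} (hx : ∀ r ∈ R, x ≠ r) :
    (derivative (pp R)).eval x = pf R x * S1 R x := by
  induction R using Multiset.induction with
  | empty => simp [pp_zero, S1_zero]
  | cons a R ih =>
    have h1 := sub_ne_zero.2 (hx a (Multiset.mem_cons_self a R))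
    have h2 := ih fun r hr => hx r (Multiset.mem_cons_of_mem hr)
    rw [pp_cons, derivative_mul, pf_cons, S1_cons]
    simp only [derivative_sub, derivative_X, derivative_C, sub_zero, one_mul, eval_add, eval_mul,
      eval_sub, eval_X, eval_C, h2, eval_pp]
    field_simp

lemma eval_der2 {R : Multiset ℝ} {x : ℝ} (hx : ∀ r ∈ R, x ≠ r) :
    (derivative (derivative (pp R))).eval x = pf R x * (S1 R x ^ 2 - S2 R x) := by
  induction R using Multiset.induction with
  | empty => simp [pp_zero, S1_zero, S2_zero]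
  | cons a R ih =>
    have h1 := sub_ne_zero.2 (hx a (Multiset.mem_cons_self a R))
    have hx' : ∀ r ∈ R, x ≠ r := fun r hr => hx r (Multiset.mem_cons_of_mem hr)
    have h2 := ih hx'
    have h3 := eval_der hx'
    rw [pp_cons, derivative_mul, pf_cons, S1_cons, S2_cons]
    simp only [derivative_sub, derivative_X, derivative_C, sub_zero, one_mul, derivative_add,
      derivative_mul, eval_add, eval_mul, eval_sub, eval_X, eval_C, h2, h3, eval_pp]
    field_simp
    ring

lemma hasDeriv_pf {R : Multiset ℝ} {x : ℝ} (hx : ∀ r ∈ R, x ≠ r) :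
    HasDerivAt (pf R) (pf R x * S1 R x) x := by
  have h := (pp R).hasDerivAt x
  rw [eval_der hx] at h
  have e : (fun x => (pp R).eval x) = pf R := funext fun x => eval_pp R x
  rwa [e] at h

lemma hasDeriv_S1 {R : Multiset ℝ} {x : ℝ} (hx : ∀ r ∈ R, x ≠ r) :
    HasDerivAt (S1 R) (-S2 R x) x := by
  induction R using Multiset.induction with
  | empty =>
    have e : S1 0 = fun _ => (0:ℝ) := funext S1_zero
    rw [e, S2_zero, neg_zero]
    exact hasDerivAt_const x 0
  | cons a R ih =>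
    have h1 := sub_ne_zero.2 (hx a (Multiset.mem_cons_self a R))
    have h2 := ih fun r hr => hx r (Multiset.mem_cons_of_mem hr)
    have e : S1 (a ::ₘ R) = fun x => (x - a)⁻¹ + S1 R x := funext fun x => S1_cons a R x
    rw [e, S2_cons]
    have h3 : HasDerivAt (fun x : ℝ => (x - a)⁻¹) (-1 / (x - a) ^ 2) x :=
      ((hasDerivAt_id x).sub_const a).inv h1
    have h4 := h3.add h2
    convert! h4 using 1
    field_simp
    ring

lemma two_mul_le (R : Multiset ℝ) (x t : ℝ) :
    2 * t * S1 R x ≤ Multiset.card R * t ^ 2 + S2 R x := by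
  induction R using Multiset.induction with
  | empty => simp [S1_zero, S2_zero]
  | cons a R ih =>
    rw [S1_cons, S2_cons, Multiset.card_cons]
    push_cast
    nlinarith [sq_nonneg (t - (x - a)⁻¹)]

/-- Cauchy-Schwarz -/
lemma S1_sq_le (R : Multiset ℝ) (x : ℝ) : S1 R x ^ 2 ≤ Multiset.card R * S2 R x := by
  induction R using Multiset.induction with
  | empty => simp [S1_zero]
  | cons a R ih =>
    have h := two_mul_le R x (x - a)⁻¹
    rw [S1_cons, S2_cons, Multiset.card_cons]
    push_cast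
    nlinarith

/-- lower bound with equality case -/
lemma S1_ge {R : Multiset ℝ} {x t : ℝ} (h : ∀ r ∈ R, t ≤ (x - r)⁻¹) :
    Multiset.card R * t ≤ S1 R x ∧ (S1 R x = Multiset.card R * t → ∀ r ∈ R, (x - r)⁻¹ = t) := by
  induction R using Multiset.induction with
  | empty => simp [S1_zero]
  | cons a R ih =>
    obtain ⟨h1, h2⟩ := ih fun r hr => h r (Multiset.mem_cons_of_mem hr)
    have h3 := h a (Multiset.mem_cons_self a R)
    rw [S1_cons, Multiset.card_cons]
    push_cast
    refine ⟨by linarith, fun heq r hr => ?_⟩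
    rcases Multiset.mem_cons.1 hr with rfl | hr
    · linarith
    · exact h2 (by linarith) r hr

lemma S1_mono {R : Multiset ℝ} {x y : ℝ} (h : ∀ r ∈ R, (x - r)⁻¹ ≤ (y - r)⁻¹) :
    S1 R x ≤ S1 R y := Multiset.sum_map_le_sum_map _ _ h

lemma S1_ge_single {R : Multiset ℝ} {x l : ℝ} (hl : l ∈ R) (h : ∀ r ∈ R, 0 ≤ (x - r)⁻¹) :
    (x - l)⁻¹ ≤ S1 R x := by
  unfold S1
  apply Multiset.single_le_sum
  · intro t ht
    obtain ⟨r, hr, rfl⟩ := Multiset.mem_map.1 ht
    exact h r hr
  · exact Multiset.mem_map_of_mem _ hl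

/-- upper bound with equality case -/
lemma S1_le {R : Multiset ℝ} {x t : ℝ} (h : ∀ r ∈ R, (x - r)⁻¹ ≤ t) :
    S1 R x ≤ Multiset.card R * t ∧ (S1 R x = Multiset.card R * t → ∀ r ∈ R, (x - r)⁻¹ = t) := by
  induction R using Multiset.induction with
  | empty => simp [S1_zero]
  | cons a R ih =>
    obtain ⟨h1, h2⟩ := ih fun r hr => h r (Multiset.mem_cons_of_mem hr)
    have h3 := h a (Multiset.mem_cons_self a R)
    rw [S1_cons, Multiset.card_cons]
    push_cast
    refine ⟨by linarith, fun heq r hr => ?_⟩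
    rcases Multiset.mem_cons.1 hr with rfl | hr
    · linarith
    · exact h2 (by linarith) r hr

lemma S1_le_single {R : Multiset ℝ} {x l : ℝ} (hl : l ∈ R) (h : ∀ r ∈ R, (x - r)⁻¹ ≤ 0) :
    S1 R x ≤ (x - l)⁻¹ := by
  obtain ⟨R', rfl⟩ := Multiset.exists_cons_of_mem hl
  rw [S1_cons]
  have := (S1_le (R := R') (x := x) (t := 0) fun r hr => h r (Multiset.mem_cons_of_mem hr)).1
  linarith

/-- reflection -/
lemma S1_neg (R : Multiset ℝ) (x : ℝ) : S1 (R.map fun r => -r) (-x) = -S1 R x := by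
  induction R using Multiset.induction with
  | empty => simp [S1_zero]
  | cons a R ih =>
    rw [Multiset.map_cons, S1_cons, S1_cons, ih]
    have e : -x - -a = -(x - a) := by ring
    rw [e, inv_neg]
    ring

end Pool.Agent.R571.TI
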