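import Pool.Agent.R571.TI.Basic

/-! Comparison with `(1+x)^a (1-x)^b`. -/

namespace Pool.Agent.R571.TI

open Topology Filter

/-- slope function of the comparison polynomial -/
noncomputable def sp (a b x : ℝ) : ℝ := a / (1 + x) - b / (1 - x)
/-- minus its derivative -/
noncomputable def tp (a b x : ℝ) : ℝ := a / (1 + x) ^ 2 + b / (1 - x) ^ 2
/-- logarithm of the comparison polynomial -/
noncomputable def lp (a b x : ℝ) : ℝ := a * Real.log (1 + x) + b * Real.log (1 - x)
/-- inverse of `sp` -/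
noncomputable def XX (a b s : ℝ) : ℝ :=
  2 * (a - b - s) / (a + b + √((a + b) ^ 2 + 4 * s ^ 2 - 4 * s * (a - b)))

section

variable {a b : ℝ}

lemma XX_mem (ha : 0 < a) (hb : 0 < b) (s : ℝ) : -1 < XX a b s ∧ XX a b s < 1 := by
  have h0 : (2 * s - (a - b)) ^ 2 < (a + b) ^ 2 + 4 * s ^ 2 - 4 * s * (a - b) := by
    nlinarith [mul_pos ha hb]
  have h1 : |2 * s - (a - b)| < √((a + b) ^ 2 + 4 * s ^ 2 - 4 * s * (a - b)) := by
    rw [← Real.sqrt_sq_eq_abs]
    exact Real.sqrt_lt_sqrt (sq_nonneg _) h0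
  obtain ⟨h2, h3⟩ := abs_lt.1 h1
  have hpos : 0 < a + b + √((a + b) ^ 2 + 4 * s ^ 2 - 4 * s * (a - b)) := by
    have := Real.sqrt_nonneg ((a + b) ^ 2 + 4 * s ^ 2 - 4 * s * (a - b))
    linarith
  unfold XX
  rw [lt_div_iff₀ hpos, div_lt_iff₀ hpos]
  constructor <;> linarith

lemma sp_XX (ha : 0 < a) (hb : 0 < b) (s : ℝ) : sp a b (XX a b s) = s := by
  obtain ⟨h1, h2⟩ := XX_mem ha hb s
  have h0 : 0 ≤ (a + b) ^ 2 + 4 * s ^ 2 - 4 * s * (a - b) := by
    nlinarith [mul_pos ha hb, sq_nonneg (2 * s - (a - b))]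
  set D := √((a + b) ^ 2 + 4 * s ^ 2 - 4 * s * (a - b)) with hD
  have hDsq : D ^ 2 = (a + b) ^ 2 + 4 * s ^ 2 - 4 * s * (a - b) := Real.sq_sqrt h0
  have hD0 : 0 ≤ D := Real.sqrt_nonneg _
  have hpos : 0 < a + b + D := by linarith
  have hquad : s * (XX a b s) ^ 2 - (a + b) * XX a b s + (a - b - s) = 0 := by
    have e : XX a b s = 2 * (a - b - s) / (a + b + D) := rfl
    rw [e]
    field_simp
    linear_combination (a - b - s) * hDsq
  unfold sp
  rw [div_sub_div _ _ (by linarith) (by linarith), div_eq_iff (by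
    apply mul_ne_zero <;> linarith)]
  linear_combination hquad

lemma XX_cont (ha : 0 < a) (hb : 0 < b) : Continuous (XX a b) := by
  unfold XX
  apply Continuous.div
  · fun_prop
  · fun_prop
  · intro s
    have := Real.sqrt_nonneg ((a + b) ^ 2 + 4 * s ^ 2 - 4 * s * (a - b))
    have : 0 < a + b + √((a + b) ^ 2 + 4 * s ^ 2 - 4 * s * (a - b)) := by linarith
    exact this.ne'

lemma tp_pos (ha : 0 < a) (hb : 0 < b) {x : ℝ} (h1 : -1 < x) (h2 : x < 1) : 0 < tp a b x := by
  unfold tp
  have : 0 < 1 + x := by linarith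
  have : 0 < 1 - x := by linarith
  positivity

lemma hasDeriv_sp {x : ℝ} (h1 : -1 < x) (h2 : x < 1) :
    HasDerivAt (sp a b) (-tp a b x) x := by
  have ha : HasDerivAt (fun x : ℝ => a / (1 + x)) (-a / (1 + x) ^ 2) x := by
    have h := (hasDerivAt_const x a).div ((hasDerivAt_id x).const_add 1) (by
      simp only [id]; linarith)
    convert! h using 1
    simp
  have hb : HasDerivAt (fun x : ℝ => b / (1 - x)) (b / (1 - x) ^ 2) x := by
    have h := (hasDerivAt_const x b).div ((hasDerivAt_id x).const_sub 1) (by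
      simp only [id]; linarith)
    convert! h using 1
    simp
  convert! ha.sub hb using 1
  unfold tp
  ring

lemma sp_strictAnti (ha : 0 < a) (hb : 0 < b) {x y : ℝ} (h1 : -1 < x) (hxy : x < y)
    (h2 : y < 1) : sp a b y < sp a b x := by
  unfold sp
  have h3 : a / (1 + y) < a / (1 + x) := div_lt_div_of_pos_left ha (by linarith) (by linarith)
  have h4 : b / (1 - x) < b / (1 - y) := div_lt_div_of_pos_left hb (by linarith) (by linarith)
  linarith

lemma sp_inj (ha : 0 < a) (hb : 0 < b) {x y : ℝ} (hx1 : -1 < x) (hx2 : x < 1) (hy1 : -1 < y)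
    (hy2 : y < 1) (h : sp a b x = sp a b y) : x = y := by
  rcases lt_trichotomy x y with hlt | heq | hgt
  · exact absurd h (sp_strictAnti ha hb hx1 hlt hy2).ne'
  · exact heq
  · exact absurd h (sp_strictAnti ha hb hy1 hgt hx2).ne

lemma XX_sp (ha : 0 < a) (hb : 0 < b) {x : ℝ} (h1 : -1 < x) (h2 : x < 1) :
    XX a b (sp a b x) = x :=
  sp_inj ha hb (XX_mem ha hb _).1 (XX_mem ha hb _).2 h1 h2 (sp_XX ha hb _)

lemma hasDeriv_XX (ha : 0 < a) (hb : 0 < b) (s : ℝ) :
    HasDerivAt (XX a b) (-tp a b (XX a b s))⁻¹ s := by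
  obtain ⟨h1, h2⟩ := XX_mem ha hb s
  exact HasDerivAt.of_local_left_inverse (XX_cont ha hb).continuousAt (hasDeriv_sp h1 h2)
    (neg_ne_zero.2 (tp_pos ha hb h1 h2).ne') (Eventually.of_forall fun y => sp_XX ha hb y)

lemma hasDeriv_lp {x : ℝ} (h1 : -1 < x) (h2 : x < 1) :
    HasDerivAt (lp a b) (sp a b x) x := by
  have ha : HasDerivAt (fun x : ℝ => a * Real.log (1 + x)) (a * (1 / (1 + x))) x := by
    have h := ((hasDerivAt_id x).const_add 1).log (by simp only [id]; linarith)
    exact h.const_mul a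
  have hb : HasDerivAt (fun x : ℝ => b * Real.log (1 - x)) (b * (-1 / (1 - x))) x := by
    have h := ((hasDerivAt_id x).const_sub 1).log (by simp only [id]; linarith)
    exact h.const_mul b
  convert! ha.add hb using 1
  unfold sp
  ring

end

/-- the root configuration around an interior critical point `x₀` -/
structure Conf (L R : Multiset ℝ) (x₀ : ℝ) : Prop where
  hL : ∀ r ∈ L, -1 ≤ r ∧ r < x₀
  hR : ∀ r ∈ R, x₀ < r ∧ r ≤ 1
  cL : 0 < Multiset.card L
  cR : 0 < Multiset.card R
  crit : S1 (L + R) x₀ = 0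

/-- the root-free interval around `x₀` -/
def InJ (L R : Multiset ℝ) (y : ℝ) : Prop := (∀ r ∈ L, r < y) ∧ ∀ r ∈ R, y < r

section

variable {L R : Multiset ℝ} {x₀ : ℝ}

lemma Conf.inJ (h : Conf L R x₀) : InJ L R x₀ :=
  ⟨fun r hr => (h.hL r hr).2, fun r hr => (h.hR r hr).1⟩

lemma Conf.mem (h : Conf L R x₀) {y : ℝ} (hy : InJ L R y) : -1 < y ∧ y < 1 := by
  obtain ⟨l, hl⟩ := Multiset.card_pos_iff_exists_mem.1 h.cL
  obtain ⟨r, hr⟩ := Multiset.card_pos_iff_exists_mem.1 h.cR
  exact ⟨(h.hL l hl).1.trans_lt (hy.1 l hl), (hy.2 r hr).trans_le (h.hR r hr).2⟩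

lemma InJ.ne {y : ℝ} (hy : InJ L R y) : ∀ r ∈ L + R, y ≠ r := by
  intro r hr
  rcases Multiset.mem_add.1 hr with h | h
  · exact (hy.1 r h).ne'
  · exact (hy.2 r h).ne

lemma Conf.ca (h : Conf L R x₀) : (0:ℝ) < Multiset.card L := by exact_mod_cast h.cL
lemma Conf.cb (h : Conf L R x₀) : (0:ℝ) < Multiset.card R := by exact_mod_cast h.cR

/-- comparison of `T` at equal slopes -/
lemma Conf.cmp (h : Conf L R x₀) {y : ℝ} (hy : InJ L R y) {x : ℝ} (hx1 : -1 < x) (hx2 : x < 1)
    (hs : S1 (L + R) y = sp (Multiset.card L) (Multiset.card R) x) :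
    tp (Multiset.card L) (Multiset.card R) x ≤ S2 (L + R) y ∧
      (S2 (L + R) y ≤ tp (Multiset.card L) (Multiset.card R) x →
        (∀ r ∈ L, r = -1) ∧ ∀ r ∈ R, r = 1) := by
  have ha := h.ca
  have hb := h.cb
  obtain ⟨hy1, hy2⟩ := h.mem hy
  set a : ℝ := (Multiset.card L : ℝ) with hadef
  set b : ℝ := (Multiset.card R : ℝ) with hbdef
  have hLt : ∀ r ∈ L, (1 + y)⁻¹ ≤ (y - r)⁻¹ := by
    intro r hr
    have := (h.hL r hr).1
    have := hy.1 r hr
    exact inv_anti₀ (by linarith) (by linarith)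
  have hRt : ∀ r ∈ R, (y - r)⁻¹ ≤ -(1 - y)⁻¹ := by
    intro r hr
    have h1 := (h.hR r hr).2
    have h2 := hy.2 r hr
    have h3 : (1 - y)⁻¹ ≤ (r - y)⁻¹ := inv_anti₀ (by linarith) (by linarith)
    have e : (y - r)⁻¹ = -(r - y)⁻¹ := by rw [← inv_neg]; congr 1; ring
    rw [e]
    linarith
  obtain ⟨hα, hαe⟩ := S1_ge hLt
  obtain ⟨hβ, hβe⟩ := S1_le hRt
  set α := S1 L y with hαdef
  set β' := S1 R y with hβdef
  rw [← hadef] at hα hαe
  rw [← hbdef] at hβ hβe
  have hy1' : 0 < 1 + y := by linarith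
  have hy2' : 0 < 1 - y := by linarith
  have hx1' : 0 < 1 + x := by linarith
  have hx2' : 0 < 1 - x := by linarith
  -- α (1+y) ≥ a, β (1-y) ≥ b
  have hα1 : a ≤ α * (1 + y) := by
    have := mul_le_mul_of_nonneg_right hα hy1'.le
    rwa [mul_assoc, inv_mul_cancel₀ hy1'.ne', mul_one] at this
  have hβ1 : b ≤ (-β') * (1 - y) := by
    have := mul_le_mul_of_nonneg_right hβ hy2'.le
    have e : b * -(1 - y)⁻¹ * (1 - y) = -b := by
      rw [mul_neg, neg_mul, mul_assoc, inv_mul_cancel₀ hy2'.ne', mul_one]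
    rw [e] at this
    linarith
  have hαp : 0 < α := by
    by_contra hc
    push Not at hc
    nlinarith
  have hβp : 0 < -β' := by
    by_contra hc
    push Not at hc
    nlinarith
  rw [S1_add] at hs
  have hs' : α - (-β') = a / (1 + x) - b / (1 - x) := by
    rw [sub_neg_eq_add]
    exact hs
  set αh := a / (1 + x) with hαh
  set βh := b / (1 - x) with hβh
  have hαh1 : αh * (1 + x) = a := div_mul_cancel₀ _ hx1'.ne'
  have hβh1 : βh * (1 - x) = b := div_mul_cancel₀ _ hx2'.ne'
  have hαhp : 0 < αh := by positivity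
  have hβhp : 0 < βh := by positivity
  have hge : αh ≤ α := by
    by_contra hc
    push Not at hc
    have hc2 : -β' < βh := by linarith
    -- then 1+y > 1+x and 1-y > 1-x
    have h1 : 1 + x < 1 + y := by
      by_contra hc3
      push Not at hc3
      have h4 : α * (1 + y) ≤ α * (1 + x) := mul_le_mul_of_nonneg_left hc3 hαp.le
      have h5 : α * (1 + x) < αh * (1 + x) := mul_lt_mul_of_pos_right hc hx1'
      linarith
    have h2 : 1 - x < 1 - y := by
      by_contra hc3
      push Not at hc3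
      have h4 : (-β') * (1 - y) ≤ (-β') * (1 - x) := mul_le_mul_of_nonneg_left hc3 hβp.le
      have h5 : (-β') * (1 - x) < βh * (1 - x) := mul_lt_mul_of_pos_right hc2 hx2'
      linarith
    linarith
  have hge2 : βh ≤ -β' := by linarith
  have hS2L : α ^ 2 / a ≤ S2 L y := by
    rw [div_le_iff₀ ha]
    have := S1_sq_le L y
    linarith
  have hS2R : (-β') ^ 2 / b ≤ S2 R y := by
    rw [div_le_iff₀ hb]
    have := S1_sq_le R y
    rw [neg_sq]
    linarith
  have htp : tp a b x = αh ^ 2 / a + βh ^ 2 / b := by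
    unfold tp
    rw [hαh, hβh]
    field_simp
  have hsqa : αh ^ 2 / a ≤ α ^ 2 / a :=
    div_le_div_of_nonneg_right (pow_le_pow_left₀ hαhp.le hge 2) ha.le
  have hsqb : βh ^ 2 / b ≤ (-β') ^ 2 / b :=
    div_le_div_of_nonneg_right (pow_le_pow_left₀ hβhp.le hge2 2) hb.le
  rw [S2_add, htp]
  refine ⟨by linarith, fun hle => ?_⟩
  -- equality
  have h1 : α ^ 2 / a = αh ^ 2 / a := by linarith
  have h2 : α ^ 2 = αh ^ 2 := by
    field_simp at h1
    exact h1
  have h3 : α = αh := by
    rcases sq_eq_sq_iff_eq_or_eq_neg.1 h2 with h | h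
    · exact h
    · linarith
  have h4 : -β' = βh := by linarith
  have h5 : 1 + x ≤ 1 + y := by
    by_contra hc
    push Not at hc
    have : α * (1 + y) < α * (1 + x) := mul_lt_mul_of_pos_left hc hαp
    rw [h3] at this hα1
    linarith
  have h6 : 1 - x ≤ 1 - y := by
    by_contra hc
    push Not at hc
    have : (-β') * (1 - y) < (-β') * (1 - x) := mul_lt_mul_of_pos_left hc hβp
    rw [h4] at this hβ1
    linarith
  have hxy : x = y := by linarith
  subst hxy
  refine ⟨fun r hr => ?_, fun r hr => ?_⟩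
  · have h7 := hαe (by rw [h3, hαh, div_eq_mul_inv]) r hr
    have h8 := inv_injective h7
    linarith
  · have h7 := hβe (by
      have : β' = -βh := by linarith
      rw [this, hβh, div_eq_mul_inv]
      ring) r hr
    rw [← inv_neg] at h7
    have h8 := inv_injective h7
    linarith

lemma InJ.between {y z w : ℝ} (hy : InJ L R y) (hz : InJ L R z) (h1 : y ≤ w) (h2 : w ≤ z) :
    InJ L R w :=
  ⟨fun r hr => (hy.1 r hr).trans_le h1, fun r hr => h2.trans_lt (hz.2 r hr)⟩

lemma InJ.S1_anti {y z : ℝ} (hy : InJ L R y) (hz : InJ L R z) (h : y ≤ z) :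
    S1 (L + R) z ≤ S1 (L + R) y := by
  apply S1_mono
  intro r hr
  rcases Multiset.mem_add.1 hr with h1 | h1
  · have := hy.1 r h1
    exact inv_anti₀ (by linarith) (by linarith)
  · have := hz.2 r h1
    have e1 : (z - r)⁻¹ = -(r - z)⁻¹ := by rw [← inv_neg]; congr 1; ring
    have e2 : (y - r)⁻¹ = -(r - y)⁻¹ := by rw [← inv_neg]; congr 1; ring
    rw [e1, e2]
    have : (r - y)⁻¹ ≤ (r - z)⁻¹ := inv_anti₀ (by linarith) (by linarith)
    linarith

/-- the comparison function -/
noncomputable def gg (L R : Multiset ℝ) (y : ℝ) : ℝ :=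
  Real.log (pf (L + R) y) -
    lp (Multiset.card L) (Multiset.card R) (XX (Multiset.card L) (Multiset.card R) (S1 (L + R) y))

lemma Conf.hasDeriv_gg (h : Conf L R x₀) {y : ℝ} (hy : InJ L R y) :
    HasDerivAt (gg L R) (S1 (L + R) y * (1 - S2 (L + R) y /
      tp (Multiset.card L) (Multiset.card R)
        (XX (Multiset.card L) (Multiset.card R) (S1 (L + R) y)))) y := by
  have ha := h.ca
  have hb := h.cb
  have hne := hy.ne
  have h1 := (hasDeriv_pf hne).log (pf_ne_zero hne)
  obtain ⟨hx1, hx2⟩ := XX_mem ha hb (S1 (L + R) y)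
  have h2 := (hasDeriv_XX ha hb (S1 (L + R) y)).comp y (hasDeriv_S1 hne)
  have h3 := (hasDeriv_lp (a := Multiset.card L) (b := Multiset.card R) hx1 hx2).comp y h2
  have h4 := h1.sub h3
  convert! h4 using 1
  rw [sp_XX ha hb]
  have h5 := (tp_pos ha hb hx1 hx2).ne'
  have h6 := pf_ne_zero hne
  field_simp

lemma Conf.gg_ge (h : Conf L R x₀) {y : ℝ} (hy : InJ L R y) : gg L R x₀ ≤ gg L R y := by
  have ha := h.ca
  have hb := h.cb
  have hJ := h.inJ
  have hT : ∀ z, InJ L R z → 1 - S2 (L + R) z /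
      tp (Multiset.card L) (Multiset.card R)
        (XX (Multiset.card L) (Multiset.card R) (S1 (L + R) z)) ≤ 0 := by
    intro z hz
    obtain ⟨hx1, hx2⟩ := XX_mem ha hb (S1 (L + R) z)
    have h1 := (h.cmp hz hx1 hx2 (sp_XX ha hb _).symm).1
    have h2 := tp_pos ha hb hx1 hx2
    have := (one_le_div h2).2 h1
    linarith
  rcases le_total x₀ y with hle | hle
  · have hmono : MonotoneOn (gg L R) (Set.Icc x₀ y) := by
      apply monotoneOn_of_deriv_nonneg (convex_Icc _ _)
      · intro z hz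
        exact (h.hasDeriv_gg (hJ.between hy hz.1 hz.2)).continuousAt.continuousWithinAt
      · intro z hz
        rw [interior_Icc] at hz
        exact (h.hasDeriv_gg (hJ.between hy hz.1.le hz.2.le)).differentiableAt.differentiableWithinAt
      · intro z hz
        rw [interior_Icc] at hz
        have hzJ := hJ.between hy hz.1.le hz.2.le
        rw [(h.hasDeriv_gg hzJ).deriv]
        have h1 := hJ.S1_anti hzJ hz.1.le
        rw [h.crit] at h1
        exact mul_nonneg_of_nonpos_of_nonpos h1 (hT z hzJ)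
    exact hmono (Set.left_mem_Icc.2 hle) (Set.right_mem_Icc.2 hle) hle
  · have hanti : AntitoneOn (gg L R) (Set.Icc y x₀) := by
      apply antitoneOn_of_deriv_nonpos (convex_Icc _ _)
      · intro z hz
        exact (h.hasDeriv_gg (hy.between hJ hz.1 hz.2)).continuousAt.continuousWithinAt
      · intro z hz
        rw [interior_Icc] at hz
        exact (h.hasDeriv_gg (hy.between hJ hz.1.le hz.2.le)).differentiableAt.differentiableWithinAt
      · intro z hz
        rw [interior_Icc] at hz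
        have hzJ := hy.between hJ hz.1.le hz.2.le
        rw [(h.hasDeriv_gg hzJ).deriv]
        have h1 := hzJ.S1_anti hJ hz.2.le
        rw [h.crit] at h1
        exact mul_nonpos_of_nonneg_of_nonpos h1 (hT z hzJ)
    exact hanti (Set.left_mem_Icc.2 hle) (Set.right_mem_Icc.2 hle) hle

/-- every slope is attained on the root-free interval -/
lemma Conf.exists_slope (h : Conf L R x₀) (s : ℝ) : ∃ y, InJ L R y ∧ S1 (L + R) y = s := by
  have hJ := h.inJ
  have hcont : ∀ y z, InJ L R y → InJ L R z → ContinuousOn (S1 (L + R)) (Set.Icc y z) := by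
    intro y z hy hz w hw
    exact (hasDeriv_S1 (hy.between hz hw.1 hw.2).ne).continuousAt.continuousWithinAt
  rcases le_total 0 s with hs | hs
  · -- left end
    obtain ⟨l, hl, hlmax⟩ : ∃ l ∈ L, ∀ r ∈ L, r ≤ l := by
      have hne : L.toFinset.Nonempty := by
        obtain ⟨l, hl⟩ := Multiset.card_pos_iff_exists_mem.1 h.cL
        exact ⟨l, Multiset.mem_toFinset.2 hl⟩
      refine ⟨L.toFinset.max' hne, Multiset.mem_toFinset.1 (Finset.max'_mem _ _), fun r hr => ?_⟩
      exact Finset.le_max' _ _ (Multiset.mem_toFinset.2 hr)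
    have hlx := (h.hL l hl).2
    set e := min (x₀ - l) (1 / (s + |S1 R x₀| + 1)) with he
    have habs := abs_nonneg (S1 R x₀)
    have he0 : 0 < e := lt_min (by linarith) (by positivity)
    have hy1 : InJ L R (l + e) := by
      refine ⟨fun r hr => by have := hlmax r hr; linarith, fun r hr => ?_⟩
      have h1 := (h.hR r hr).1
      have h2 : e ≤ x₀ - l := min_le_left _ _
      linarith
    have hle : l + e ≤ x₀ := by
      have h2 : e ≤ x₀ - l := min_le_left _ _
      linarith
    have hbig : s ≤ S1 (L + R) (l + e) := by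
      rw [S1_add]
      have h1 := S1_ge_single (x := l + e) hl (fun r hr => by
        have := hlmax r hr
        exact inv_nonneg.2 (by linarith))
      have h2 : S1 R x₀ ≤ S1 R (l + e) := by
        apply S1_mono
        intro r hr
        have h3 := (h.hR r hr).1
        have e1 : (x₀ - r)⁻¹ = -(r - x₀)⁻¹ := by rw [← inv_neg]; congr 1; ring
        have e2 : (l + e - r)⁻¹ = -(r - (l + e))⁻¹ := by rw [← inv_neg]; congr 1; ring
        rw [e1, e2]
        have : (r - (l + e))⁻¹ ≤ (r - x₀)⁻¹ := inv_anti₀ (by linarith) (by linarith)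
        linarith
      have h4 : s + |S1 R x₀| + 1 ≤ (l + e - l)⁻¹ := by
        rw [add_sub_cancel_left]
        have h5 : e ≤ 1 / (s + |S1 R x₀| + 1) := min_le_right _ _
        rw [le_inv_comm₀ (by positivity) he0, ← one_div]
        exact h5
      have := neg_abs_le (S1 R x₀)
      linarith
    have hivt := intermediate_value_Icc' hle (hcont _ _ hy1 hJ)
    obtain ⟨y, hy, hys⟩ := hivt ⟨by rw [h.crit]; exact hs, hbig⟩
    exact ⟨y, hy1.between hJ hy.1 hy.2, hys⟩
  · obtain ⟨l, hl, hlmin⟩ : ∃ l ∈ R, ∀ r ∈ R, l ≤ r := by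
      have hne : R.toFinset.Nonempty := by
        obtain ⟨l, hl⟩ := Multiset.card_pos_iff_exists_mem.1 h.cR
        exact ⟨l, Multiset.mem_toFinset.2 hl⟩
      refine ⟨R.toFinset.min' hne, Multiset.mem_toFinset.1 (Finset.min'_mem _ _), fun r hr => ?_⟩
      exact Finset.min'_le _ _ (Multiset.mem_toFinset.2 hr)
    have hlx := (h.hR l hl).1
    set e := min (l - x₀) (1 / (-s + |S1 L x₀| + 1)) with he
    have habs := abs_nonneg (S1 L x₀)
    have hden : 0 < -s + |S1 L x₀| + 1 := by linarith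
    have he0 : 0 < e := lt_min (by linarith) (by positivity)
    have hy1 : InJ L R (l - e) := by
      refine ⟨fun r hr => ?_, fun r hr => by have := hlmin r hr; linarith⟩
      have h1 := (h.hL r hr).2
      have h2 : e ≤ l - x₀ := min_le_left _ _
      linarith
    have hle : x₀ ≤ l - e := by
      have h2 : e ≤ l - x₀ := min_le_left _ _
      linarith
    have hbig : S1 (L + R) (l - e) ≤ s := by
      rw [S1_add]
      have h1 := S1_le_single (x := l - e) hl (fun r hr => by
        have := hlmin r hr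
        exact inv_nonpos.2 (by linarith))
      have h2 : S1 L (l - e) ≤ S1 L x₀ := by
        apply S1_mono
        intro r hr
        have h3 := (h.hL r hr).2
        exact inv_anti₀ (by linarith) (by linarith)
      have h4 : -s + |S1 L x₀| + 1 ≤ -(l - e - l)⁻¹ := by
        have e1 : l - e - l = -e := by ring
        rw [e1, inv_neg, neg_neg]
        have h5 : e ≤ 1 / (-s + |S1 L x₀| + 1) := min_le_right _ _
        rw [le_inv_comm₀ (by positivity) he0, ← one_div]
        exact h5
      have := le_abs_self (S1 L x₀)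
      linarith
    have hivt := intermediate_value_Icc' hle (hcont _ _ hJ hy1)
    obtain ⟨y, hy, hys⟩ := hivt ⟨hbig, by rw [h.crit]; exact hs⟩
    exact ⟨y, hJ.between hy1 hy.1 hy.2, hys⟩

/-- Step 3. -/
theorem Conf.step3 (h : Conf L R x₀) {xh : ℝ} (h1 : -1 < xh) (h2 : xh < 1) :
    ∃ y, InJ L R y ∧ S1 (L + R) y = sp (Multiset.card L) (Multiset.card R) xh ∧
      |pf (L + R) x₀| * Real.exp (lp (Multiset.card L) (Multiset.card R) xh) ≤
        |pf (L + R) y| * Real.exp (lp (Multiset.card L) (Multiset.card R)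
          (XX (Multiset.card L) (Multiset.card R) 0)) := by
  obtain ⟨y, hy, hys⟩ := h.exists_slope (sp (Multiset.card L) (Multiset.card R) xh)
  refine ⟨y, hy, hys, ?_⟩
  have h3 := h.gg_ge hy
  unfold gg at h3
  rw [h.crit, hys, XX_sp h.ca h.cb h1 h2] at h3
  have hp0 : 0 < |pf (L + R) x₀| := abs_pos.2 (pf_ne_zero h.inJ.ne)
  have hpy : 0 < |pf (L + R) y| := abs_pos.2 (pf_ne_zero hy.ne)
  rw [← Real.exp_log hp0, ← Real.exp_log hpy, ← Real.exp_add, ← Real.exp_add, Real.exp_le_exp,
    Real.log_abs, Real.log_abs]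
  linarith

end

end Pool.Agent.R571.TI
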