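import Pool.Agent.R571.TI.Main

/-! The sharp inequality on the whole class. -/

namespace Pool.Agent.R571.TI

open Polynomial

/-- The class `P_n`: real polynomials of degree exactly `n` all of whose `n` zeros (counted with
multiplicity) lie in `[-1,1]`. -/
def InPn (n : ℕ) (P : ℝ[X]) : Prop :=
  P ≠ 0 ∧ P.natDegree = n ∧ Multiset.card P.roots = n ∧ ∀ r ∈ P.roots, -1 ≤ r ∧ r ≤ 1

lemma strict_of_ge (j : ℕ) (hj : 1 ≤ j) {P : ℝ[X]} (hP : P ≠ 0)
    (h : (2 * (j:ℝ) + 5) ^ 3 * nrm P ≤ nrm (derivative (derivative P)) * ((2 * j + 5) ^ 2 - 9)) :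
    nrm (derivative (derivative (Qp (j + 2)))) * nrm P <
      nrm (derivative (derivative P)) * nrm (Qp (j + 2)) := by
  have hj' : (1:ℝ) ≤ j := by exact_mod_cast hj
  have hn9 : (0:ℝ) < (2 * j + 5) ^ 2 - 9 := by nlinarith
  have h1 := nrmQ2_lt j hj
  have hp := nrm_pos hP
  have h2 := mul_lt_mul_of_pos_right h1 hp
  have h3 := mul_le_mul_of_nonneg_right h (nrm_nonneg (Qp (j + 2)))
  refine lt_of_mul_lt_mul_right (a := (2 * (j:ℝ) + 5) ^ 2 - 9) ?_ hn9.le
  calc _ = nrm (derivative (derivative (Qp (j + 2)))) * ((2 * (j:ℝ) + 5) ^ 2 - 9) * nrm P := by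
        ring
    _ < _ := h2
    _ = (2 * (j:ℝ) + 5) ^ 3 * nrm P * nrm (Qp (j + 2)) := by ring
    _ ≤ _ := h3
    _ = _ := by ring

lemma end_ge (j : ℕ) (hj : 1 ≤ j) {c x : ℝ} {R : Multiset ℝ} (hx : x ∈ Set.Icc (-1:ℝ) 1)
    (hcard : Multiset.card R = 2 * j + 5) (hne : ∀ r ∈ R, x ≠ r)
    (hn : nrm (C c * pp R) = |(C c * pp R).eval x|)
    (h : (Multiset.card R : ℝ) * (Multiset.card R - 1) / 4 ≤ S1 R x ^ 2 - S2 R x) :
    (2 * (j:ℝ) + 5) ^ 3 * nrm (C c * pp R) ≤
      nrm (derivative (derivative (C c * pp R))) * ((2 * j + 5) ^ 2 - 9) := by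
  have hj' : (1:ℝ) ≤ j := by exact_mod_cast hj
  have hn9 : (0:ℝ) < (2 * j + 5) ^ 2 - 9 := by nlinarith
  have h4 := le_nrm (derivative (derivative (C c * pp R))) hx
  have h5 : (derivative (derivative (C c * pp R))).eval x =
      c * (pf R x * (S1 R x ^ 2 - S2 R x)) := by
    rw [derivative_C_mul, derivative_C_mul, eval_mul, eval_C, eval_der2 hne]
  rw [h5, abs_mul, abs_mul] at h4
  rw [hn, eval_mul, eval_C, eval_pp, abs_mul]
  rw [hcard] at h
  push_cast at h
  have h6 : 0 ≤ |c| * |pf R x| := by positivity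
  have h7 : (2 * (j:ℝ) + 5) * (2 * j + 5 - 1) / 4 ≤ |S1 R x ^ 2 - S2 R x| :=
    h.trans (le_abs_self _)
  have h8 : |c| * |pf R x| * ((2 * (j:ℝ) + 5) * (2 * j + 5 - 1) / 4) ≤
      nrm (derivative (derivative (C c * pp R))) := by
    refine le_trans (mul_le_mul_of_nonneg_left h7 h6) (le_trans (le_of_eq ?_) h4)
    ring
  have h9 := mul_le_mul_of_nonneg_right h8 hn9.le
  refine le_trans ?_ h9
  have h10 : (2 * (j:ℝ) + 5) ^ 3 ≤
      (2 * (j:ℝ) + 5) * (2 * j + 5 - 1) / 4 * ((2 * j + 5) ^ 2 - 9) := by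
    nlinarith [sq_nonneg (j:ℝ), mul_nonneg (by linarith : (0:ℝ) ≤ j - 1) (sq_nonneg (j:ℝ)),
      mul_nonneg (mul_nonneg (by linarith : (0:ℝ) ≤ j - 1) (sq_nonneg (j:ℝ)))
        (by linarith : (0:ℝ) ≤ j)]
  have h11 := mul_le_mul_of_nonneg_left h10 h6
  linarith

lemma crit_of_max {P : ℝ[X]} {x : ℝ} (h1 : -1 < x) (h2 : x < 1)
    (hx : nrm P = |P.eval x|) : (derivative P).eval x = 0 := by
  have hnhds : Set.Icc (-1:ℝ) 1 ∈ nhds x := Icc_mem_nhds h1 h2
  have hext : IsLocalExtr (fun y => P.eval y) x := by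
    rcases le_total 0 (P.eval x) with h | h
    · right
      filter_upwards [hnhds] with y hy
      have := le_nrm P hy
      rw [hx, abs_of_nonneg h] at this
      exact (le_abs_self _).trans this
    · left
      filter_upwards [hnhds] with y hy
      have := le_nrm P hy
      rw [hx, abs_of_nonpos h] at this
      have h3 := neg_le_abs (P.eval y)
      linarith
  exact hext.hasDerivAt_eq_zero (P.hasDerivAt x)

lemma Qp_ne_zero (m : ℕ) : Qp m ≠ 0 := by
  intro h
  have := Qp_eval m 0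
  rw [h] at this
  simp at this

lemma Qp_comp_neg (m : ℕ) : (Qp m).comp (-X) = (1 + X) ^ m * (1 - X) ^ (m + 1) := by
  unfold Qp
  simp [sub_eq_add_neg]

lemma split_R {R : Multiset ℝ} (x : ℝ) (hR : ∀ r ∈ R, -1 ≤ r ∧ r ≤ 1) (hne : ∀ r ∈ R, x ≠ r)
    (hcard : 0 < Multiset.card R) (hc : S1 R x = 0) :
    ∃ L R' : Multiset ℝ, L + R' = R ∧ Conf L R' x := by
  classical
  have hsum : R.filter (fun r => r < x) + R.filter (fun r => ¬ r < x) = R :=
    Multiset.filter_add_not _ _
  obtain ⟨r0, hr0⟩ := Multiset.card_pos_iff_exists_mem.1 hcard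
  refine ⟨R.filter (fun r => r < x), R.filter (fun r => ¬ r < x), hsum, ?_, ?_, ?_, ?_, ?_⟩
  · intro r hr
    obtain ⟨h1, h2⟩ := Multiset.mem_filter.1 hr
    exact ⟨(hR r h1).1, h2⟩
  · intro r hr
    obtain ⟨h1, h2⟩ := Multiset.mem_filter.1 hr
    exact ⟨lt_of_le_of_ne (not_lt.1 h2) (hne r h1), (hR r h1).2⟩
  · by_contra hcon
    have hz : R.filter (fun r => r < x) = 0 := by
      rw [← Multiset.card_eq_zero]
      omega
    have hall : ∀ r ∈ R, x < r := by
      intro r hr
      have h1 := (Multiset.filter_eq_nil.1 hz) r hr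
      exact lt_of_le_of_ne (not_lt.1 h1) (hne r hr)
    have h3 := S1_le (R := R) (x := x) (t := 0) fun r hr => by
      have := hall r hr
      exact inv_nonpos.2 (by linarith)
    have h4 := h3.2 (by rw [hc, mul_zero]) r0 hr0
    have h5 := hall r0 hr0
    rw [inv_eq_zero] at h4
    linarith
  · by_contra hcon
    have hz : R.filter (fun r => ¬ r < x) = 0 := by
      rw [← Multiset.card_eq_zero]
      omega
    have hall : ∀ r ∈ R, r < x := by
      intro r hr
      have h1 := (Multiset.filter_eq_nil.1 hz) r hr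
      exact not_not.1 h1
    have h3 := S1_ge (R := R) (x := x) (t := 0) fun r hr => by
      have := hall r hr
      exact inv_nonneg.2 (by linarith)
    have h4 := h3.2 (by rw [hc, mul_zero]) r0 hr0
    have h5 := hall r0 hr0
    rw [inv_eq_zero] at h4
    linarith
  · rw [hsum]
    exact hc

lemma pp_of_extreme {L R : Multiset ℝ} (hL : ∀ r ∈ L, r = -1) (hR : ∀ r ∈ R, r = 1) :
    pp (L + R) = (X + 1) ^ (Multiset.card L) * (X - 1) ^ (Multiset.card R) := by
  have h1 : L = Multiset.replicate (Multiset.card L) (-1) := Multiset.eq_replicate_card.2 hL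
  have h2 : R = Multiset.replicate (Multiset.card R) 1 := Multiset.eq_replicate_card.2 hR
  unfold pp
  rw [Multiset.map_add, Multiset.prod_add]
  conv_lhs => rw [h1, h2]
  simp

theorem core (j : ℕ) (hj : 1 ≤ j) {P : ℝ[X]} (hP : InPn (2 * j + 5) P) :
    nrm (derivative (derivative (Qp (j + 2)))) * nrm P ≤
      nrm (derivative (derivative P)) * nrm (Qp (j + 2)) ∧
    (nrm (derivative (derivative P)) * nrm (Qp (j + 2)) ≤
      nrm (derivative (derivative (Qp (j + 2)))) * nrm P →
      ∃ c : ℝ, c ≠ 0 ∧ (P = C c * Qp (j + 2) ∨ P = C c * (Qp (j + 2)).comp (-X))) := by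
  obtain ⟨hP0, hdeg, hcard, hroots⟩ := hP
  have hj' : (1:ℝ) ≤ j := by exact_mod_cast hj
  have hPeq : P = C P.leadingCoeff * pp P.roots :=
    (C_leadingCoeff_mul_prod_multiset_X_sub_C (by rw [hcard, hdeg])).symm
  set c := P.leadingCoeff with hc
  set R := P.roots with hRdef
  have hc0 : c ≠ 0 := leadingCoeff_ne_zero.2 hP0
  obtain ⟨x, hx, hxn, -⟩ := nrm_spec P
  have hpos := nrm_pos hP0
  have hne : ∀ r ∈ R, x ≠ r := by
    rintro r hr rfl
    have h1 : P.eval x = 0 := (mem_roots hP0).1 hr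
    rw [hxn, h1, abs_zero] at hpos
    exact lt_irrefl _ hpos
  have strict : (2 * (j:ℝ) + 5) ^ 3 * nrm P ≤
      nrm (derivative (derivative P)) * ((2 * j + 5) ^ 2 - 9) → (
      nrm (derivative (derivative (Qp (j + 2)))) * nrm P ≤
      nrm (derivative (derivative P)) * nrm (Qp (j + 2)) ∧
    (nrm (derivative (derivative P)) * nrm (Qp (j + 2)) ≤
      nrm (derivative (derivative (Qp (j + 2)))) * nrm P →
      ∃ c : ℝ, c ≠ 0 ∧ (P = C c * Qp (j + 2) ∨ P = C c * (Qp (j + 2)).comp (-X)))) := by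
    intro h
    have h1 := strict_of_ge j hj hP0 h
    exact ⟨h1.le, fun h2 => absurd h1 (not_lt.2 h2)⟩
  rcases eq_or_lt_of_le hx.2 with hx1 | hx1
  · -- `x = 1`
    apply strict
    have := end_ge (c := c) (R := R) j hj hx hcard hne (by rw [← hPeq]; exact hxn)
      (end_bound fun r hr => by
        have h1 := hroots r hr
        have h2 := hne r hr
        have h3 : r < 1 := lt_of_le_of_ne h1.2 (by rw [← hx1]; exact h2.symm)
        rw [hx1, one_div]
        exact inv_anti₀ (by linarith) (by linarith)).2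
    rwa [← hPeq] at this
  rcases eq_or_lt_of_le hx.1 with hx2 | hx2
  · apply strict
    have := end_ge (c := c) (R := R) j hj hx hcard hne (by rw [← hPeq]; exact hxn)
      (end_bound' fun r hr => by
        have h1 := hroots r hr
        have h2 := hne r hr
        have h3 : -1 < r := lt_of_le_of_ne h1.1 (by rw [hx2]; exact h2)
        have e : x - r = -(r + 1) := by rw [← hx2]; ring
        rw [e, inv_neg, one_div]
        apply neg_le_neg
        exact inv_anti₀ (by linarith) (by linarith)).2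
    rwa [← hPeq] at this
  -- interior
  have hcrit : S1 R x = 0 := by
    have h1 := crit_of_max hx2 hx1 hxn
    rw [hPeq, derivative_C_mul, eval_mul, eval_C, eval_der hne] at h1
    rcases mul_eq_zero.1 h1 with h | h
    · exact absurd h hc0
    · rcases mul_eq_zero.1 h with h | h
      · exact absurd h (pf_ne_zero hne)
      · exact h
  obtain ⟨L, R', hLR, hconf⟩ := split_R x hroots hne (by rw [hcard]; omega) hcrit
  have hcards : Multiset.card L + Multiset.card R' = 2 * j + 5 := by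
    rw [← Multiset.card_add, hLR, hcard]
  rw [← hLR] at hPeq
  have hnrmx : nrm (C c * pp (L + R')) = |(C c * pp (L + R')).eval x| := by
    rw [← hPeq]; exact hxn
  obtain ⟨xh, hxh1, hxh2, hxhn, -⟩ := exists_xh j hj
  have hQ2 := Q2_lp j hxh1 hxh2
  rw [hQ2] at hxhn
  have hV : 0 ≤ tp ((j + 3 : ℕ) : ℝ) ((j + 2 : ℕ) : ℝ) xh -
      sp ((j + 3 : ℕ) : ℝ) ((j + 2 : ℕ) : ℝ) xh ^ 2 := by
    have h1 := nrm_nonneg (derivative (derivative (Qp (j + 2))))
    rw [hxhn] at h1
    exact (mul_nonneg_iff_of_pos_left (Real.exp_pos _)).1 h1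
  have hx0 : (0:ℝ) < 1 / (2 * j + 5) := by positivity
  have hx3 : (1:ℝ) / (2 * j + 5) < 1 := by
    rw [div_lt_one (by positivity)]
    linarith
  have hE : Real.exp (lp ((j + 3 : ℕ) : ℝ) ((j + 2 : ℕ) : ℝ) (1 / (2 * j + 5))) ≤
      nrm (Qp (j + 2)) := by
    rw [exp_lp _ _ (by linarith) hx3]
    have h1 := le_nrm (Qp (j + 2)) (y := 1 / (2 * (j:ℝ) + 5)) ⟨by linarith, hx3.le⟩
    rw [Qp_eval] at h1
    refine le_trans (le_of_eq ?_) ((le_abs_self _).trans h1)
    ring
  have hP2 := nrm_nonneg (derivative (derivative P))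
  by_cases hab : Multiset.card L = j + 3 ∧ Multiset.card R' = j + 2
  · obtain ⟨ha, hb⟩ := hab
    have hk := hconf.key hc0 hnrmx hxh1 hxh2 (by rw [ha, hb]; exact hV)
    rw [ha, hb, ← hxhn, ← hPeq, XX_zero (by positivity) (by positivity)] at hk
    have e : (((j + 3 : ℕ) : ℝ) - ((j + 2 : ℕ) : ℝ)) / (((j + 3 : ℕ) : ℝ) + ((j + 2 : ℕ) : ℝ)) =
        1 / (2 * j + 5) := by
      push_cast
      congr 1 <;> ring
    rw [e] at hk
    have hm := mul_le_mul_of_nonneg_left hE hP2
    refine ⟨by rw [mul_comm]; exact hk.1.trans hm, fun hle => ?_⟩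
    obtain ⟨hL1, hR1⟩ := hk.2 (by rw [mul_comm (nrm P)]; exact hm.trans hle)
    rw [pp_of_extreme hL1 hR1, ha, hb] at hPeq
    refine ⟨c * (-1) ^ (j + 2), mul_ne_zero hc0 (pow_ne_zero _ (by norm_num)), Or.inl ?_⟩
    rw [hPeq]
    unfold Qp
    have e1 : (X - 1 : ℝ[X]) = (-1) * (1 - X) := by ring
    rw [e1, mul_pow, C_mul, C_pow, C_neg, C_1]
    ring
  by_cases hab' : Multiset.card L = j + 2 ∧ Multiset.card R' = j + 3
  · obtain ⟨ha, hb⟩ := hab'
    have hk := hconf.key hc0 hnrmx (xh := -xh) (by linarith) (by linarith) (by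
      rw [ha, hb, tp_neg, sp_neg, neg_sq]; exact hV)
    rw [ha, hb, tp_neg, sp_neg, neg_sq, lp_neg, ← hxhn, ← hPeq,
      XX_zero (by positivity) (by positivity)] at hk
    have e : (((j + 2 : ℕ) : ℝ) - ((j + 3 : ℕ) : ℝ)) / (((j + 2 : ℕ) : ℝ) + ((j + 3 : ℕ) : ℝ)) =
        -(1 / (2 * j + 5)) := by
      rw [← neg_div]
      push_cast
      congr 1 <;> ring
    rw [e, lp_neg] at hk
    have hm := mul_le_mul_of_nonneg_left hE hP2
    refine ⟨by rw [mul_comm]; exact hk.1.trans hm, fun hle => ?_⟩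
    obtain ⟨hL1, hR1⟩ := hk.2 (by rw [mul_comm (nrm P)]; exact hm.trans hle)
    rw [pp_of_extreme hL1 hR1, ha, hb] at hPeq
    refine ⟨c * (-1) ^ (j + 3), mul_ne_zero hc0 (pow_ne_zero _ (by norm_num)), Or.inr ?_⟩
    rw [hPeq, Qp_comp_neg]
    have e1 : (X - 1 : ℝ[X]) = (-1) * (1 - X) := by ring
    rw [e1, mul_pow, C_mul, C_pow, C_neg, C_1]
    ring
  · apply strict
    have h4ab : 4 * (Multiset.card L : ℝ) * Multiset.card R' ≤ (2 * (j:ℝ) + 5) ^ 2 - 9 := by
      have hsum : (Multiset.card L : ℝ) + Multiset.card R' = 2 * j + 5 := by exact_mod_cast hcards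
      have hdiff : (Multiset.card L : ℝ) + 3 ≤ Multiset.card R' ∨
          (Multiset.card R' : ℝ) + 3 ≤ Multiset.card L := by
        have : Multiset.card L + 3 ≤ Multiset.card R' ∨ Multiset.card R' + 3 ≤ Multiset.card L := by
          omega
        rcases this with h | h
        · left; exact_mod_cast h
        · right; exact_mod_cast h
      rw [← hsum]
      rcases hdiff with h | h <;> nlinarith
    have hmax := hconf.at_max
    have hS2 : 0 ≤ S2 (L + R') x := by
      have ha := hconf.ca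
      have hb := hconf.cb
      by_contra hcon
      push Not at hcon
      have h1 : 0 < 4 * (Multiset.card L : ℝ) * Multiset.card R' := by positivity
      have h2 := mul_neg_of_pos_of_neg h1 hcon
      have h3 : 0 < ((Multiset.card L : ℝ) + Multiset.card R') ^ 3 := by positivity
      linarith
    have hsum : (Multiset.card L : ℝ) + Multiset.card R' = 2 * j + 5 := by exact_mod_cast hcards
    rw [hsum] at hmax
    have h4 := le_nrm (derivative (derivative P)) hx
    have hne' : ∀ r ∈ L + R', x ≠ r := by rw [hLR]; exact hne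
    have h5 : (derivative (derivative P)).eval x =
        c * (pf (L + R') x * (S1 (L + R') x ^ 2 - S2 (L + R') x)) := by
      rw [hPeq, derivative_C_mul, derivative_C_mul, eval_mul, eval_C, eval_der2 hne']
    have h6 : nrm P = |c| * |pf (L + R') x| := by
      rw [hxn, hPeq, eval_mul, eval_C, eval_pp, abs_mul]
    have h7 : nrm P * S2 (L + R') x ≤ nrm (derivative (derivative P)) := by
      refine le_trans (le_of_eq ?_) h4
      rw [h5, h6, hconf.crit, abs_mul, abs_mul]
      have : |(0:ℝ) ^ 2 - S2 (L + R') x| = S2 (L + R') x := by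
        rw [zero_pow two_ne_zero, zero_sub, abs_neg, abs_of_nonneg hS2]
      rw [this]
      ring
    have hn9 : (0:ℝ) < (2 * j + 5) ^ 2 - 9 := by nlinarith
    calc (2 * (j:ℝ) + 5) ^ 3 * nrm P
        ≤ 4 * (Multiset.card L : ℝ) * Multiset.card R' * S2 (L + R') x * nrm P :=
          mul_le_mul_of_nonneg_right hmax hpos.le
      _ ≤ ((2 * (j:ℝ) + 5) ^ 2 - 9) * S2 (L + R') x * nrm P := by
          apply mul_le_mul_of_nonneg_right _ hpos.le
          exact mul_le_mul_of_nonneg_right h4ab hS2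
      _ = (nrm P * S2 (L + R') x) * ((2 * (j:ℝ) + 5) ^ 2 - 9) := by ring
      _ ≤ _ := mul_le_mul_of_nonneg_right h7 hn9.le

lemma Qp_inPn (m : ℕ) : InPn (2 * m + 1) (Qp m) := by
  have hL : (1 - X : ℝ[X]) = -(X - C 1) := by rw [C_1]; ring
  have hR : (1 + X : ℝ[X]) = X - C (-1) := by rw [C_neg, C_1]; ring
  have hQ : Qp m = C ((-1) ^ m) * pp (Multiset.replicate m 1 + Multiset.replicate (m + 1) (-1)) := by
    unfold Qp pp
    rw [hL, hR, Multiset.map_add, Multiset.prod_add, Multiset.map_replicate,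
      Multiset.map_replicate, Multiset.prod_replicate, Multiset.prod_replicate, neg_pow]
    simp only [C_pow, C_neg, C_1]
    ring
  have hroots : (Qp m).roots = Multiset.replicate m 1 + Multiset.replicate (m + 1) (-1) := by
    rw [hQ, roots_C_mul _ (pow_ne_zero _ (by norm_num))]
    unfold pp
    exact roots_multiset_prod_X_sub_C _
  have hdeg : (Qp m).natDegree = 2 * m + 1 := by
    rw [hQ, natDegree_C_mul (pow_ne_zero _ (by norm_num))]
    unfold pp
    rw [natDegree_multiset_prod_X_sub_C_eq_card, Multiset.card_add, Multiset.card_replicate,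
      Multiset.card_replicate]
    omega
  refine ⟨Qp_ne_zero m, hdeg, ?_, ?_⟩
  · rw [hroots, Multiset.card_add, Multiset.card_replicate, Multiset.card_replicate]
    omega
  · intro r hr
    rw [hroots] at hr
    rcases Multiset.mem_add.1 hr with h | h
    · rw [Multiset.eq_of_mem_replicate h]; norm_num
    · rw [Multiset.eq_of_mem_replicate h]; norm_num

/-- The best constant `C_n`. -/
noncomputable def bestC (n : ℕ) : ℝ :=
  sInf {r : ℝ | ∃ P : ℝ[X], InPn n P ∧ r = nrm (derivative (derivative P)) / nrm P}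

theorem main (m : ℕ) (hm : 3 ≤ m) :
    bestC (2 * m + 1) = nrm (derivative (derivative (Qp m))) / nrm (Qp m) ∧
    (∀ P : ℝ[X], InPn (2 * m + 1) P →
      bestC (2 * m + 1) * nrm P ≤ nrm (derivative (derivative P))) ∧
    ∀ P : ℝ[X], InPn (2 * m + 1) P →
      (nrm (derivative (derivative P)) = bestC (2 * m + 1) * nrm P ↔
        ∃ c : ℝ, c ≠ 0 ∧ (P = C c * Qp m ∨ P = C c * (Qp m).comp (-X))) := by
  obtain ⟨j, rfl⟩ : ∃ j, m = j + 2 := ⟨m - 2, by omega⟩
  have hj : 1 ≤ j := by omega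
  have e : 2 * (j + 2) + 1 = 2 * j + 5 := by ring
  have hQpos := nrm_pos (Qp_ne_zero (j + 2))
  have hQin := Qp_inPn (j + 2)
  rw [e] at hQin ⊢
  have hleast : IsLeast {r : ℝ | ∃ P : ℝ[X], InPn (2 * j + 5) P ∧
      r = nrm (derivative (derivative P)) / nrm P}
      (nrm (derivative (derivative (Qp (j + 2)))) / nrm (Qp (j + 2))) := by
    refine ⟨⟨Qp (j + 2), hQin, rfl⟩, ?_⟩
    rintro r ⟨P, hP, rfl⟩
    rw [div_le_div_iff₀ hQpos (nrm_pos hP.1)]
    exact (core j hj hP).1
  have hC : bestC (2 * j + 5) = nrm (derivative (derivative (Qp (j + 2)))) / nrm (Qp (j + 2)) :=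
    hleast.csInf_eq
  refine ⟨hC, ?_, ?_⟩
  · intro P hP
    rw [hC, div_mul_eq_mul_div, div_le_iff₀ hQpos]
    exact (core j hj hP).1
  · intro P hP
    rw [hC, div_mul_eq_mul_div, eq_div_iff hQpos.ne']
    constructor
    · intro h
      exact (core j hj hP).2 h.le
    · rintro ⟨c, hc, h | h⟩
      · rw [h, derivative_C_mul, derivative_C_mul, nrm_C_mul, nrm_C_mul]
        ring
      · have hd : derivative (derivative ((Qp (j + 2)).comp (-X))) =
            (derivative (derivative (Qp (j + 2)))).comp (-X) := by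
          rw [derivative_comp, derivative_mul, derivative_comp]
          simp
        rw [h, derivative_C_mul, derivative_C_mul, nrm_C_mul, nrm_C_mul, hd, nrm_comp_neg,
          nrm_comp_neg]
        ring

end Pool.Agent.R571.TI
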