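import Pool.Agent.R571.TI.Compare

/-! The extremal polynomial `Q = (1-x)^m (1+x)^(m+1)`. -/

namespace Pool.Agent.R571.TI

open Polynomial

/-! ### Bernstein certificates -/

lemma b1_0 (x : ℝ) (h1 : (-1) ≤ x) (h2 : x ≤ (-1/2)) : 0 ≤ 23/18 - (1 - x^2) * (1 + x) * (7 * x^2 - 2 * x - 1) := by
  have key : ∀ s t : ℝ, 0 ≤ s → 0 ≤ t → 0 ≤ (368/9) * t ^ 5 + (1840/9) * s ^ 1 * t ^ 4 + (2528/9) * s ^ 2 * t ^ 3 + (1664/9) * s ^ 3 * t ^ 2 + (724/9) * s ^ 4 * t ^ 1 + (179/9) * s ^ 5 := by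
    intro s t hs ht
    positivity
  have h := key (x - (-1)) ((-1/2) - x) (by linarith) (by linarith)
  have e : 23/18 - (1 - x^2) * (1 + x) * (7 * x^2 - 2 * x - 1) = (368/9) * ((-1/2) - x) ^ 5 + (1840/9) * (x - (-1)) ^ 1 * ((-1/2) - x) ^ 4 + (2528/9) * (x - (-1)) ^ 2 * ((-1/2) - x) ^ 3 + (1664/9) * (x - (-1)) ^ 3 * ((-1/2) - x) ^ 2 + (724/9) * (x - (-1)) ^ 4 * ((-1/2) - x) ^ 1 + (179/9) * (x - (-1)) ^ 5 := by ring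
  rw [e]
  exact h

lemma b1_1 (x : ℝ) (h1 : (-1/2) ≤ x) (h2 : x ≤ 0) : 0 ≤ 23/18 - (1 - x^2) * (1 + x) * (7 * x^2 - 2 * x - 1) := by
  have key : ∀ s t : ℝ, 0 ≤ s → 0 ≤ t → 0 ≤ (179/9) * t ^ 5 + (1066/9) * s ^ 1 * t ^ 4 + (3032/9) * s ^ 2 * t ^ 3 + (4400/9) * s ^ 3 * t ^ 2 + (2848/9) * s ^ 4 * t ^ 1 + (656/9) * s ^ 5 := by
    intro s t hs ht
    positivity
  have h := key (x - (-1/2)) (0 - x) (by linarith) (by linarith)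
  have e : 23/18 - (1 - x^2) * (1 + x) * (7 * x^2 - 2 * x - 1) = (179/9) * (0 - x) ^ 5 + (1066/9) * (x - (-1/2)) ^ 1 * (0 - x) ^ 4 + (3032/9) * (x - (-1/2)) ^ 2 * (0 - x) ^ 3 + (4400/9) * (x - (-1/2)) ^ 3 * (0 - x) ^ 2 + (2848/9) * (x - (-1/2)) ^ 4 * (0 - x) ^ 1 + (656/9) * (x - (-1/2)) ^ 5 := by ring
  rw [e]
  exact h

lemma b1_2 (x : ℝ) (h1 : 0 ≤ x) (h2 : x ≤ (1/2)) : 0 ≤ 23/18 - (1 - x^2) * (1 + x) * (7 * x^2 - 2 * x - 1) := by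
  have key : ∀ s t : ℝ, 0 ≤ s → 0 ≤ t → 0 ≤ (656/9) * t ^ 5 + (3712/9) * s ^ 1 * t ^ 4 + (7856/9) * s ^ 2 * t ^ 3 + (7496/9) * s ^ 3 * t ^ 2 + (3082/9) * s ^ 4 * t ^ 1 + (449/9) * s ^ 5 := by
    intro s t hs ht
    positivity
  have h := key (x - 0) ((1/2) - x) (by linarith) (by linarith)
  have e : 23/18 - (1 - x^2) * (1 + x) * (7 * x^2 - 2 * x - 1) = (656/9) * ((1/2) - x) ^ 5 + (3712/9) * (x - 0) ^ 1 * ((1/2) - x) ^ 4 + (7856/9) * (x - 0) ^ 2 * ((1/2) - x) ^ 3 + (7496/9) * (x - 0) ^ 3 * ((1/2) - x) ^ 2 + (3082/9) * (x - 0) ^ 4 * ((1/2) - x) ^ 1 + (449/9) * (x - 0) ^ 5 := by ring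
  rw [e]
  exact h

lemma b1_3 (x : ℝ) (h1 : (1/2) ≤ x) (h2 : x ≤ (3/4)) : 0 ≤ 23/18 - (1 - x^2) * (1 + x) * (7 * x^2 - 2 * x - 1) := by
  have key : ∀ s t : ℝ, 0 ≤ s → 0 ≤ t → 0 ≤ (14368/9) * t ^ 5 + (58448/9) * s ^ 1 * t ^ 4 + (87376/9) * s ^ 2 * t ^ 3 + (57640/9) * s ^ 3 * t ^ 2 + (15914/9) * s ^ 4 * t ^ 1 + (1633/9) * s ^ 5 := by
    intro s t hs ht
    positivity
  have h := key (x - (1/2)) ((3/4) - x) (by linarith) (by linarith)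
  have e : 23/18 - (1 - x^2) * (1 + x) * (7 * x^2 - 2 * x - 1) = (14368/9) * ((3/4) - x) ^ 5 + (58448/9) * (x - (1/2)) ^ 1 * ((3/4) - x) ^ 4 + (87376/9) * (x - (1/2)) ^ 2 * ((3/4) - x) ^ 3 + (57640/9) * (x - (1/2)) ^ 3 * ((3/4) - x) ^ 2 + (15914/9) * (x - (1/2)) ^ 4 * ((3/4) - x) ^ 1 + (1633/9) * (x - (1/2)) ^ 5 := by ring
  rw [e]
  exact h

lemma b1_4 (x : ℝ) (h1 : (3/4) ≤ x) (h2 : x ≤ (7/8)) : 0 ≤ 23/18 - (1 - x^2) * (1 + x) * (7 * x^2 - 2 * x - 1) := by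
  have key : ∀ s t : ℝ, 0 ≤ s → 0 ≤ t → 0 ≤ (52256/9) * t ^ 5 + (137296/9) * s ^ 1 * t ^ 4 + (109136/9) * s ^ 2 * t ^ 3 + (51752/9) * s ^ 3 * t ^ 2 + (66250/9) * s ^ 4 * t ^ 1 + (38657/9) * s ^ 5 := by
    intro s t hs ht
    positivity
  have h := key (x - (3/4)) ((7/8) - x) (by linarith) (by linarith)
  have e : 23/18 - (1 - x^2) * (1 + x) * (7 * x^2 - 2 * x - 1) = (52256/9) * ((7/8) - x) ^ 5 + (137296/9) * (x - (3/4)) ^ 1 * ((7/8) - x) ^ 4 + (109136/9) * (x - (3/4)) ^ 2 * ((7/8) - x) ^ 3 + (51752/9) * (x - (3/4)) ^ 3 * ((7/8) - x) ^ 2 + (66250/9) * (x - (3/4)) ^ 4 * ((7/8) - x) ^ 1 + (38657/9) * (x - (3/4)) ^ 5 := by ring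
  rw [e]
  exact h

lemma b1_5 (x : ℝ) (h1 : (7/8) ≤ x) (h2 : x ≤ 1) : 0 ≤ 23/18 - (1 - x^2) * (1 + x) * (7 * x^2 - 2 * x - 1) := by
  have key : ∀ s t : ℝ, 0 ≤ s → 0 ≤ t → 0 ≤ (38657/9) * t ^ 5 + (320320/9) * s ^ 1 * t ^ 4 + (1068032/9) * s ^ 2 * t ^ 3 + (1703936/9) * s ^ 3 * t ^ 2 + (1294336/9) * s ^ 4 * t ^ 1 + (376832/9) * s ^ 5 := by
    intro s t hs ht
    positivity
  have h := key (x - (7/8)) (1 - x) (by linarith) (by linarith)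
  have e : 23/18 - (1 - x^2) * (1 + x) * (7 * x^2 - 2 * x - 1) = (38657/9) * (1 - x) ^ 5 + (320320/9) * (x - (7/8)) ^ 1 * (1 - x) ^ 4 + (1068032/9) * (x - (7/8)) ^ 2 * (1 - x) ^ 3 + (1703936/9) * (x - (7/8)) ^ 3 * (1 - x) ^ 2 + (1294336/9) * (x - (7/8)) ^ 4 * (1 - x) ^ 1 + (376832/9) * (x - (7/8)) ^ 5 := by ring
  rw [e]
  exact h

lemma b1 (x : ℝ) (h1 : (-1) ≤ x) (h2 : x ≤ 1) : 0 ≤ 23/18 - (1 - x^2) * (1 + x) * (7 * x^2 - 2 * x - 1) := by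
  rcases le_total x (-1/2) with h3 | h3
  · exact b1_0 x h1 h3
  rcases le_total x 0 with h4 | h4
  · exact b1_1 x h3 h4
  rcases le_total x (1/2) with h5 | h5
  · exact b1_2 x h4 h5
  rcases le_total x (3/4) with h6 | h6
  · exact b1_3 x h5 h6
  rcases le_total x (7/8) with h7 | h7
  · exact b1_4 x h6 h7
  exact b1_5 x h7 h2

lemma b2_0 (x : ℝ) (h1 : (-1) ≤ x) (h2 : x ≤ 0) : 0 ≤ 6/5 - (1 - x^2)^2 * (1 + x) * (9 * x^2 - 2 * x - 1) := by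
  have key : ∀ s t : ℝ, 0 ≤ s → 0 ≤ t → 0 ≤ (6/5) * t ^ 7 + (42/5) * s ^ 1 * t ^ 6 + (126/5) * s ^ 2 * t ^ 5 + 2 * s ^ 3 * t ^ 4 + 2 * s ^ 4 * t ^ 3 + (96/5) * s ^ 5 * t ^ 2 + (62/5) * s ^ 6 * t ^ 1 + (11/5) * s ^ 7 := by
    intro s t hs ht
    positivity
  have h := key (x - (-1)) (0 - x) (by linarith) (by linarith)
  have e : 6/5 - (1 - x^2)^2 * (1 + x) * (9 * x^2 - 2 * x - 1) = (6/5) * (0 - x) ^ 7 + (42/5) * (x - (-1)) ^ 1 * (0 - x) ^ 6 + (126/5) * (x - (-1)) ^ 2 * (0 - x) ^ 5 + 2 * (x - (-1)) ^ 3 * (0 - x) ^ 4 + 2 * (x - (-1)) ^ 4 * (0 - x) ^ 3 + (96/5) * (x - (-1)) ^ 5 * (0 - x) ^ 2 + (62/5) * (x - (-1)) ^ 6 * (0 - x) ^ 1 + (11/5) * (x - (-1)) ^ 7 := by ring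
  rw [e]
  exact h

lemma b2_1 (x : ℝ) (h1 : 0 ≤ x) (h2 : x ≤ (1/2)) : 0 ≤ 6/5 - (1 - x^2)^2 * (1 + x) * (9 * x^2 - 2 * x - 1) := by
  have key : ∀ s t : ℝ, 0 ≤ s → 0 ≤ t → 0 ≤ (1408/5) * t ^ 7 + (10816/5) * s ^ 1 * t ^ 6 + (33888/5) * s ^ 2 * t ^ 5 + 11056 * s ^ 3 * t ^ 4 + 9976 * s ^ 4 * t ^ 3 + (24588/5) * s ^ 5 * t ^ 2 + (6186/5) * s ^ 6 * t ^ 1 + (633/5) * s ^ 7 := by
    intro s t hs ht
    positivity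
  have h := key (x - 0) ((1/2) - x) (by linarith) (by linarith)
  have e : 6/5 - (1 - x^2)^2 * (1 + x) * (9 * x^2 - 2 * x - 1) = (1408/5) * ((1/2) - x) ^ 7 + (10816/5) * (x - 0) ^ 1 * ((1/2) - x) ^ 6 + (33888/5) * (x - 0) ^ 2 * ((1/2) - x) ^ 5 + 11056 * (x - 0) ^ 3 * ((1/2) - x) ^ 4 + 9976 * (x - 0) ^ 4 * ((1/2) - x) ^ 3 + (24588/5) * (x - 0) ^ 5 * ((1/2) - x) ^ 2 + (6186/5) * (x - 0) ^ 6 * ((1/2) - x) ^ 1 + (633/5) * (x - 0) ^ 7 := by ring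
  rw [e]
  exact h

lemma b2_2 (x : ℝ) (h1 : (1/2) ≤ x) (h2 : x ≤ 1) : 0 ≤ 6/5 - (1 - x^2)^2 * (1 + x) * (9 * x^2 - 2 * x - 1) := by
  have key : ∀ s t : ℝ, 0 ≤ s → 0 ≤ t → 0 ≤ (633/5) * t ^ 7 + (2676/5) * s ^ 1 * t ^ 6 + (3528/5) * s ^ 2 * t ^ 5 + 416 * s ^ 3 * t ^ 4 + 896 * s ^ 4 * t ^ 3 + (8448/5) * s ^ 5 * t ^ 2 + (5376/5) * s ^ 6 * t ^ 1 + (768/5) * s ^ 7 := by
    intro s t hs ht
    positivity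
  have h := key (x - (1/2)) (1 - x) (by linarith) (by linarith)
  have e : 6/5 - (1 - x^2)^2 * (1 + x) * (9 * x^2 - 2 * x - 1) = (633/5) * (1 - x) ^ 7 + (2676/5) * (x - (1/2)) ^ 1 * (1 - x) ^ 6 + (3528/5) * (x - (1/2)) ^ 2 * (1 - x) ^ 5 + 416 * (x - (1/2)) ^ 3 * (1 - x) ^ 4 + 896 * (x - (1/2)) ^ 4 * (1 - x) ^ 3 + (8448/5) * (x - (1/2)) ^ 5 * (1 - x) ^ 2 + (5376/5) * (x - (1/2)) ^ 6 * (1 - x) ^ 1 + (768/5) * (x - (1/2)) ^ 7 := by ring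
  rw [e]
  exact h

lemma b2 (x : ℝ) (h1 : (-1) ≤ x) (h2 : x ≤ 1) : 0 ≤ 6/5 - (1 - x^2)^2 * (1 + x) * (9 * x^2 - 2 * x - 1) := by
  rcases le_total x 0 with h3 | h3
  · exact b2_0 x h1 h3
  rcases le_total x (1/2) with h4 | h4
  · exact b2_1 x h3 h4
  exact b2_2 x h4 h2

lemma b3_0 (x : ℝ) (h1 : (-1) ≤ x) (h2 : x ≤ (-1/2)) : 0 ≤ 1 - (1 - x^2)^3 * (1 + x) * (11 * x^2 - 2 * x - 1) := by
  have key : ∀ s t : ℝ, 0 ≤ s → 0 ≤ t → 0 ≤ 512 * t ^ 9 + 4608 * s ^ 1 * t ^ 8 + 18432 * s ^ 2 * t ^ 7 + 43008 * s ^ 3 * t ^ 6 + 61440 * s ^ 4 * t ^ 5 + 54528 * s ^ 5 * t ^ 4 + 30208 * s ^ 6 * t ^ 3 + 10368 * s ^ 7 * t ^ 2 + 2124 * s ^ 8 * t ^ 1 + 215 * s ^ 9 := by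
    intro s t hs ht
    positivity
  have h := key (x - (-1)) ((-1/2) - x) (by linarith) (by linarith)
  have e : 1 - (1 - x^2)^3 * (1 + x) * (11 * x^2 - 2 * x - 1) = 512 * ((-1/2) - x) ^ 9 + 4608 * (x - (-1)) ^ 1 * ((-1/2) - x) ^ 8 + 18432 * (x - (-1)) ^ 2 * ((-1/2) - x) ^ 7 + 43008 * (x - (-1)) ^ 3 * ((-1/2) - x) ^ 6 + 61440 * (x - (-1)) ^ 4 * ((-1/2) - x) ^ 5 + 54528 * (x - (-1)) ^ 5 * ((-1/2) - x) ^ 4 + 30208 * (x - (-1)) ^ 6 * ((-1/2) - x) ^ 3 + 10368 * (x - (-1)) ^ 7 * ((-1/2) - x) ^ 2 + 2124 * (x - (-1)) ^ 8 * ((-1/2) - x) ^ 1 + 215 * (x - (-1)) ^ 9 := by ring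
  rw [e]
  exact h

lemma b3_1 (x : ℝ) (h1 : (-1/2) ≤ x) (h2 : x ≤ 0) : 0 ≤ 1 - (1 - x^2)^3 * (1 + x) * (11 * x^2 - 2 * x - 1) := by
  have key : ∀ s t : ℝ, 0 ≤ s → 0 ≤ t → 0 ≤ 215 * t ^ 9 + 1746 * s ^ 1 * t ^ 8 + 7344 * s ^ 2 * t ^ 7 + 21536 * s ^ 3 * t ^ 6 + 44832 * s ^ 4 * t ^ 5 + 62400 * s ^ 5 * t ^ 4 + 55040 * s ^ 6 * t ^ 3 + 29184 * s ^ 7 * t ^ 2 + 8448 * s ^ 8 * t ^ 1 + 1024 * s ^ 9 := by
    intro s t hs ht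
    positivity
  have h := key (x - (-1/2)) (0 - x) (by linarith) (by linarith)
  have e : 1 - (1 - x^2)^3 * (1 + x) * (11 * x^2 - 2 * x - 1) = 215 * (0 - x) ^ 9 + 1746 * (x - (-1/2)) ^ 1 * (0 - x) ^ 8 + 7344 * (x - (-1/2)) ^ 2 * (0 - x) ^ 7 + 21536 * (x - (-1/2)) ^ 3 * (0 - x) ^ 6 + 44832 * (x - (-1/2)) ^ 4 * (0 - x) ^ 5 + 62400 * (x - (-1/2)) ^ 5 * (0 - x) ^ 4 + 55040 * (x - (-1/2)) ^ 6 * (0 - x) ^ 3 + 29184 * (x - (-1/2)) ^ 7 * (0 - x) ^ 2 + 8448 * (x - (-1/2)) ^ 8 * (0 - x) ^ 1 + 1024 * (x - (-1/2)) ^ 9 := by ring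
  rw [e]
  exact h

lemma b3_2 (x : ℝ) (h1 : 0 ≤ x) (h2 : x ≤ (1/2)) : 0 ≤ 1 - (1 - x^2)^3 * (1 + x) * (11 * x^2 - 2 * x - 1) := by
  have key : ∀ s t : ℝ, 0 ≤ s → 0 ≤ t → 0 ≤ 1024 * t ^ 9 + 9984 * s ^ 1 * t ^ 8 + 41472 * s ^ 2 * t ^ 7 + 95488 * s ^ 3 * t ^ 6 + 133056 * s ^ 4 * t ^ 5 + 115296 * s ^ 5 * t ^ 4 + 61728 * s ^ 6 * t ^ 3 + 19728 * s ^ 7 * t ^ 2 + 3474 * s ^ 8 * t ^ 1 + 269 * s ^ 9 := by
    intro s t hs ht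
    positivity
  have h := key (x - 0) ((1/2) - x) (by linarith) (by linarith)
  have e : 1 - (1 - x^2)^3 * (1 + x) * (11 * x^2 - 2 * x - 1) = 1024 * ((1/2) - x) ^ 9 + 9984 * (x - 0) ^ 1 * ((1/2) - x) ^ 8 + 41472 * (x - 0) ^ 2 * ((1/2) - x) ^ 7 + 95488 * (x - 0) ^ 3 * ((1/2) - x) ^ 6 + 133056 * (x - 0) ^ 4 * ((1/2) - x) ^ 5 + 115296 * (x - 0) ^ 5 * ((1/2) - x) ^ 4 + 61728 * (x - 0) ^ 6 * ((1/2) - x) ^ 3 + 19728 * (x - 0) ^ 7 * ((1/2) - x) ^ 2 + 3474 * (x - 0) ^ 8 * ((1/2) - x) ^ 1 + 269 * (x - 0) ^ 9 := by ring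
  rw [e]
  exact h

lemma b3_3 (x : ℝ) (h1 : (1/2) ≤ x) (h2 : x ≤ 1) : 0 ≤ 1 - (1 - x^2)^3 * (1 + x) * (11 * x^2 - 2 * x - 1) := by
  have key : ∀ s t : ℝ, 0 ≤ s → 0 ≤ t → 0 ≤ 269 * t ^ 9 + 1368 * s ^ 1 * t ^ 8 + 2880 * s ^ 2 * t ^ 7 + 6144 * s ^ 3 * t ^ 6 + 17664 * s ^ 4 * t ^ 5 + 33792 * s ^ 5 * t ^ 4 + 34816 * s ^ 6 * t ^ 3 + 18432 * s ^ 7 * t ^ 2 + 4608 * s ^ 8 * t ^ 1 + 512 * s ^ 9 := by
    intro s t hs ht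
    positivity
  have h := key (x - (1/2)) (1 - x) (by linarith) (by linarith)
  have e : 1 - (1 - x^2)^3 * (1 + x) * (11 * x^2 - 2 * x - 1) = 269 * (1 - x) ^ 9 + 1368 * (x - (1/2)) ^ 1 * (1 - x) ^ 8 + 2880 * (x - (1/2)) ^ 2 * (1 - x) ^ 7 + 6144 * (x - (1/2)) ^ 3 * (1 - x) ^ 6 + 17664 * (x - (1/2)) ^ 4 * (1 - x) ^ 5 + 33792 * (x - (1/2)) ^ 5 * (1 - x) ^ 4 + 34816 * (x - (1/2)) ^ 6 * (1 - x) ^ 3 + 18432 * (x - (1/2)) ^ 7 * (1 - x) ^ 2 + 4608 * (x - (1/2)) ^ 8 * (1 - x) ^ 1 + 512 * (x - (1/2)) ^ 9 := by ring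
  rw [e]
  exact h

lemma b3 (x : ℝ) (h1 : (-1) ≤ x) (h2 : x ≤ 1) : 0 ≤ 1 - (1 - x^2)^3 * (1 + x) * (11 * x^2 - 2 * x - 1) := by
  rcases le_total x (-1/2) with h3 | h3
  · exact b3_0 x h1 h3
  rcases le_total x 0 with h4 | h4
  · exact b3_1 x h3 h4
  rcases le_total x (1/2) with h5 | h5
  · exact b3_2 x h4 h5
  exact b3_3 x h5 h2

lemma h4_0 (x : ℝ) (h1 : (-1) ≤ x) (h2 : x ≤ (-1/2)) : 0 ≤ 2 + 3 * x - 7 * x^2 - 13 * x^3 + 10 * x^4 + 20 * x^6 := by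
  have key : ∀ s t : ℝ, 0 ≤ s → 0 ≤ t → 0 ≤ 2240 * t ^ 6 + 7616 * s ^ 1 * t ^ 5 + 10752 * s ^ 2 * t ^ 4 + 8024 * s ^ 3 * t ^ 3 + 3360 * s ^ 4 * t ^ 2 + 776 * s ^ 5 * t ^ 1 + 84 * s ^ 6 := by
    intro s t hs ht
    positivity
  have h := key (x - (-1)) ((-1/2) - x) (by linarith) (by linarith)
  have e : 2 + 3 * x - 7 * x^2 - 13 * x^3 + 10 * x^4 + 20 * x^6 = 2240 * ((-1/2) - x) ^ 6 + 7616 * (x - (-1)) ^ 1 * ((-1/2) - x) ^ 5 + 10752 * (x - (-1)) ^ 2 * ((-1/2) - x) ^ 4 + 8024 * (x - (-1)) ^ 3 * ((-1/2) - x) ^ 3 + 3360 * (x - (-1)) ^ 4 * ((-1/2) - x) ^ 2 + 776 * (x - (-1)) ^ 5 * ((-1/2) - x) ^ 1 + 84 * (x - (-1)) ^ 6 := by ring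
  rw [e]
  exact h

lemma h4_1 (x : ℝ) (h1 : (-1/2) ≤ x) (h2 : x ≤ 0) : 0 ≤ 2 + 3 * x - 7 * x^2 - 13 * x^3 + 10 * x^4 + 20 * x^6 := by
  have key : ∀ s t : ℝ, 0 ≤ s → 0 ≤ t → 0 ≤ 84 * t ^ 6 + 232 * s ^ 1 * t ^ 5 + 640 * s ^ 2 * t ^ 4 + 1256 * s ^ 3 * t ^ 3 + 1328 * s ^ 4 * t ^ 2 + 672 * s ^ 5 * t ^ 1 + 128 * s ^ 6 := by
    intro s t hs ht
    positivity
  have h := key (x - (-1/2)) (0 - x) (by linarith) (by linarith)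
  have e : 2 + 3 * x - 7 * x^2 - 13 * x^3 + 10 * x^4 + 20 * x^6 = 84 * (0 - x) ^ 6 + 232 * (x - (-1/2)) ^ 1 * (0 - x) ^ 5 + 640 * (x - (-1/2)) ^ 2 * (0 - x) ^ 4 + 1256 * (x - (-1/2)) ^ 3 * (0 - x) ^ 3 + 1328 * (x - (-1/2)) ^ 4 * (0 - x) ^ 2 + 672 * (x - (-1/2)) ^ 5 * (0 - x) ^ 1 + 128 * (x - (-1/2)) ^ 6 := by ring
  rw [e]
  exact h

lemma h4_2 (x : ℝ) (h1 : 0 ≤ x) (h2 : x ≤ (1/2)) : 0 ≤ 2 + 3 * x - 7 * x^2 - 13 * x^3 + 10 * x^4 + 20 * x^6 := by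
  have key : ∀ s t : ℝ, 0 ≤ s → 0 ≤ t → 0 ≤ 128 * t ^ 6 + 864 * s ^ 1 * t ^ 5 + 2288 * s ^ 2 * t ^ 4 + 2968 * s ^ 3 * t ^ 3 + 1936 * s ^ 4 * t ^ 2 + 568 * s ^ 5 * t ^ 1 + 68 * s ^ 6 := by
    intro s t hs ht
    positivity
  have h := key (x - 0) ((1/2) - x) (by linarith) (by linarith)
  have e : 2 + 3 * x - 7 * x^2 - 13 * x^3 + 10 * x^4 + 20 * x^6 = 128 * ((1/2) - x) ^ 6 + 864 * (x - 0) ^ 1 * ((1/2) - x) ^ 5 + 2288 * (x - 0) ^ 2 * ((1/2) - x) ^ 4 + 2968 * (x - 0) ^ 3 * ((1/2) - x) ^ 3 + 1936 * (x - 0) ^ 4 * ((1/2) - x) ^ 2 + 568 * (x - 0) ^ 5 * ((1/2) - x) ^ 1 + 68 * (x - 0) ^ 6 := by ring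
  rw [e]
  exact h

lemma h4_3 (x : ℝ) (h1 : (1/2) ≤ x) (h2 : x ≤ 1) : 0 ≤ 2 + 3 * x - 7 * x^2 - 13 * x^3 + 10 * x^4 + 20 * x^6 := by
  have key : ∀ s t : ℝ, 0 ≤ s → 0 ≤ t → 0 ≤ 68 * t ^ 6 + 248 * s ^ 1 * t ^ 5 + 336 * s ^ 2 * t ^ 4 + 680 * s ^ 3 * t ^ 3 + 1824 * s ^ 4 * t ^ 2 + 2240 * s ^ 5 * t ^ 1 + 960 * s ^ 6 := by
    intro s t hs ht
    positivity
  have h := key (x - (1/2)) (1 - x) (by linarith) (by linarith)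
  have e : 2 + 3 * x - 7 * x^2 - 13 * x^3 + 10 * x^4 + 20 * x^6 = 68 * (1 - x) ^ 6 + 248 * (x - (1/2)) ^ 1 * (1 - x) ^ 5 + 336 * (x - (1/2)) ^ 2 * (1 - x) ^ 4 + 680 * (x - (1/2)) ^ 3 * (1 - x) ^ 3 + 1824 * (x - (1/2)) ^ 4 * (1 - x) ^ 2 + 2240 * (x - (1/2)) ^ 5 * (1 - x) ^ 1 + 960 * (x - (1/2)) ^ 6 := by ring
  rw [e]
  exact h

lemma h4 (x : ℝ) (h1 : (-1) ≤ x) (h2 : x ≤ 1) : 0 ≤ 2 + 3 * x - 7 * x^2 - 13 * x^3 + 10 * x^4 + 20 * x^6 := by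
  rcases le_total x (-1/2) with h3 | h3
  · exact h4_0 x h1 h3
  rcases le_total x 0 with h4 | h4
  · exact h4_1 x h3 h4
  rcases le_total x (1/2) with h5 | h5
  · exact h4_2 x h4 h5
  exact h4_3 x h5 h2

lemma dneg (x : ℝ) (h1 : (-1) ≤ x) (h2 : x ≤ (-3/10)) : 0 ≤ -1 - 2 * x + 9/2 * x^2 + 37/3 * x^4 := by
  have key : ∀ s t : ℝ, 0 ≤ s → 0 ≤ t → 0 ≤ (535000/7203) * t ^ 4 + (291000/2401) * s ^ 1 * t ^ 3 + (187650/2401) * s ^ 2 * t ^ 2 + (46420/2401) * s ^ 3 * t ^ 1 + (1049/2401) * s ^ 4 := by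
    intro s t hs ht
    positivity
  have h := key (x - (-1)) ((-3/10) - x) (by linarith) (by linarith)
  have e : -1 - 2 * x + 9/2 * x^2 + 37/3 * x^4 = (535000/7203) * ((-3/10) - x) ^ 4 + (291000/2401) * (x - (-1)) ^ 1 * ((-3/10) - x) ^ 3 + (187650/2401) * (x - (-1)) ^ 2 * ((-3/10) - x) ^ 2 + (46420/2401) * (x - (-1)) ^ 3 * ((-3/10) - x) ^ 1 + (1049/2401) * (x - (-1)) ^ 4 := by ring
  rw [e]
  exact h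

lemma dpos (x : ℝ) (h1 : (3/5) ≤ x) (h2 : x ≤ 1) : 0 ≤ -1 - 2 * x + 9/2 * x^2 + 37/3 * x^4 := by
  have key : ∀ s t : ℝ, 0 ≤ s → 0 ≤ t → 0 ≤ (1273/32) * t ^ 4 + (1515/4) * s ^ 1 * t ^ 3 + (17475/16) * s ^ 2 * t ^ 2 + (5125/4) * s ^ 3 * t ^ 1 + (51875/96) * s ^ 4 := by
    intro s t hs ht
    positivity
  have h := key (x - (3/5)) (1 - x) (by linarith) (by linarith)
  have e : -1 - 2 * x + 9/2 * x^2 + 37/3 * x^4 = (1273/32) * (1 - x) ^ 4 + (1515/4) * (x - (3/5)) ^ 1 * (1 - x) ^ 3 + (17475/16) * (x - (3/5)) ^ 2 * (1 - x) ^ 2 + (5125/4) * (x - (3/5)) ^ 3 * (1 - x) ^ 1 + (51875/96) * (x - (3/5)) ^ 4 := by ring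
  rw [e]
  exact h

lemma dd (x : ℝ) (h1 : (-3/10) ≤ x) (h2 : x ≤ (3/5)) : 0 ≤ (2 + 10 * x^2) * (2 + 3 * x - 7 * x^2 - 13 * x^3 + 10 * x^4 + 20 * x^6) - (-1 - 2 * x + 9/2 * x^2 + 37/3 * x^4)^2 := by
  have key : ∀ s t : ℝ, 0 ≤ s → 0 ≤ t → 0 ≤ (88235933/14348907) * t ^ 8 + (780569272/14348907) * s ^ 1 * t ^ 7 + (2800760996/14348907) * s ^ 2 * t ^ 6 + (4914559216/14348907) * s ^ 3 * t ^ 5 + (6804199460/14348907) * s ^ 4 * t ^ 4 + (7667292064/14348907) * s ^ 5 * t ^ 3 + (5883741536/14348907) * s ^ 6 * t ^ 2 + (1623668608/14348907) * s ^ 7 * t ^ 1 + (96304448/14348907) * s ^ 8 := by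
    intro s t hs ht
    positivity
  have h := key (x - (-3/10)) ((3/5) - x) (by linarith) (by linarith)
  have e : (2 + 10 * x^2) * (2 + 3 * x - 7 * x^2 - 13 * x^3 + 10 * x^4 + 20 * x^6) - (-1 - 2 * x + 9/2 * x^2 + 37/3 * x^4)^2 = (88235933/14348907) * ((3/5) - x) ^ 8 + (780569272/14348907) * (x - (-3/10)) ^ 1 * ((3/5) - x) ^ 7 + (2800760996/14348907) * (x - (-3/10)) ^ 2 * ((3/5) - x) ^ 6 + (4914559216/14348907) * (x - (-3/10)) ^ 3 * ((3/5) - x) ^ 5 + (6804199460/14348907) * (x - (-3/10)) ^ 4 * ((3/5) - x) ^ 4 + (7667292064/14348907) * (x - (-3/10)) ^ 5 * ((3/5) - x) ^ 3 + (5883741536/14348907) * (x - (-3/10)) ^ 6 * ((3/5) - x) ^ 2 + (1623668608/14348907) * (x - (-3/10)) ^ 7 * ((3/5) - x) ^ 1 + (96304448/14348907) * (x - (-3/10)) ^ 8 := by ring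
  rw [e]
  exact h

/-! ### side lobes -/

lemma pow_W (j : ℕ) (u : ℝ) (h0 : 0 ≤ u) (h1 : u ≤ 1) :
    (1 - u) ^ j * (1 + j * u + j * (j + 1) / 2 * u ^ 2 + j * (j + 1) * (j + 2) / 6 * u ^ 3) ≤ 1 := by
  induction j with
  | zero => simp
  | succ j ih =>
    refine le_trans ?_ ih
    rw [pow_succ, mul_assoc]
    apply mul_le_mul_of_nonneg_left _ (pow_nonneg (by linarith) _)
    push_cast
    have h4 : 0 ≤ ((j:ℝ) + 1) * (j + 2) * (j + 3) / 6 * u ^ 4 := by positivity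
    nlinarith

lemma H_nonneg (j x : ℝ) (hj : 4 ≤ j) (h1 : -1 ≤ x) (h2 : x ≤ 1) :
    (1 + x) * ((2 * j + 5) * x ^ 2 - 2 * x - 1) ≤
      1 + j * x ^ 2 + j * (j + 1) / 2 * (x ^ 2) ^ 2 + j * (j + 1) * (j + 2) / 6 * (x ^ 2) ^ 3 := by
  set w := (j - 4) * x ^ 2 with hw
  have hw0 : 0 ≤ w := mul_nonneg (by linarith) (sq_nonneg x)
  set H4 := 2 + 3 * x - 7 * x^2 - 13 * x^3 + 10 * x^4 + 20 * x^6 with hH4
  set D := -1 - 2 * x + 9/2 * x^2 + 37/3 * x^4 with hD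
  have hid : 1 + j * x ^ 2 + j * (j + 1) / 2 * (x ^ 2) ^ 2 +
      j * (j + 1) * (j + 2) / 6 * (x ^ 2) ^ 3 - (1 + x) * ((2 * j + 5) * x ^ 2 - 2 * x - 1) =
      H4 + D * w + (1 + 5 * x ^ 2) / 2 * w ^ 2 + w ^ 3 / 6 := by
    rw [hw, hH4, hD]
    ring
  have hH40 : 0 ≤ H4 := h4 x h1 h2
  have hq : 0 ≤ H4 + D * w + (1 + 5 * x ^ 2) / 2 * w ^ 2 := by
    by_cases hDs : 0 ≤ D
    · positivity
    · push Not at hDs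
      have hx1 : -3/10 ≤ x := by
        by_contra hc
        push Not at hc
        have := dneg x h1 (by linarith)
        linarith
      have hx2 : x ≤ 3/5 := by
        by_contra hc
        push Not at hc
        have := dpos x hc.le h2
        linarith
      have hdd := dd x (by linarith) hx2
      rw [← hH4, ← hD] at hdd
      have hpos : 0 < 2 + 10 * x ^ 2 := by positivity
      have key : (2 + 10 * x ^ 2) * (H4 + D * w + (1 + 5 * x ^ 2) / 2 * w ^ 2) =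
          ((1 + 5 * x ^ 2) * w + D) ^ 2 + ((2 + 10 * x ^ 2) * H4 - D ^ 2) := by ring
      have h3 : 0 ≤ (2 + 10 * x ^ 2) * (H4 + D * w + (1 + 5 * x ^ 2) / 2 * w ^ 2) := by
        rw [key]
        positivity
      exact nonneg_of_mul_nonneg_right h3 hpos
  have hw3 : 0 ≤ w ^ 3 / 6 := by positivity
  linarith

/-- the side lobe bound -/
lemma G_le (j : ℕ) (hj : 1 ≤ j) (x : ℝ) (h1 : -1 ≤ x) (h2 : x ≤ 1) :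
    (1 - x ^ 2) ^ j * (1 + x) * ((2 * j + 5) * x ^ 2 - 2 * x - 1) ≤
      (2 * (2 * j + 5) ^ 3 + (2 * j + 5) ^ 2 + 1) /
        (2 * ((2 * j + 5) ^ 2 - 1) * ((2 * j + 5) - 1)) := by
  have hj' : (1:ℝ) ≤ j := by exact_mod_cast hj
  have hden : (0:ℝ) < 2 * ((2 * j + 5) ^ 2 - 1) * ((2 * j + 5) - 1) := by
    have : (0:ℝ) < (2 * j + 5) ^ 2 - 1 := by nlinarith
    have : (0:ℝ) < (2 * (j:ℝ) + 5) - 1 := by linarith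
    positivity
  have hone : (1:ℝ) ≤ (2 * (2 * j + 5) ^ 3 + (2 * j + 5) ^ 2 + 1) /
        (2 * ((2 * j + 5) ^ 2 - 1) * ((2 * j + 5) - 1)) := by
    rw [le_div_iff₀ hden]
    nlinarith
  rcases Nat.lt_or_ge j 4 with hlt | hge
  · interval_cases j
    · have := b1 x h1 h2
      norm_num at this ⊢
      linarith
    · have := b2 x h1 h2
      norm_num at this ⊢
      linarith
    · have := b3 x h1 h2
      refine le_trans ?_ hone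
      norm_num at this ⊢
      linarith
  · refine le_trans ?_ hone
    have hge' : (4:ℝ) ≤ j := by exact_mod_cast hge
    have h3 := H_nonneg j x hge' h1 h2
    have hx2 : x ^ 2 ≤ 1 := by nlinarith
    have h4' := pow_W j (x ^ 2) (sq_nonneg x) hx2
    have h5 : 0 ≤ (1 - x ^ 2) ^ j := pow_nonneg (by linarith) _
    have h6 := mul_le_mul_of_nonneg_left h3 h5
    rw [← mul_assoc] at h6
    linarith

/-! ### main lobe -/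

lemma F_pos (n x : ℝ) (hn : 7 ≤ n) (hx : 0 < 1 + 2 * x - n * x ^ 2) :
    4 * (n - 1) * (n ^ 2 - 9) * ((1 + x) * (1 + 2 * x - n * x ^ 2)) <
      (2 * n ^ 3 + n ^ 2 + 1) * (2 + (n - 5) * x ^ 2) := by
  obtain ⟨t, ht⟩ : ∃ t, n = t + 7 := ⟨n - 7, by ring⟩
  have ht0 : 0 ≤ t := by linarith
  subst ht
  set c0 := 6 * (t + 7) ^ 2 + 36 * (t + 7) - 34 with hc0
  set c1 := 12 * ((t + 7) - 1) * ((t + 7) ^ 2 - 9) with hc1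
  set c2 := 6 * (t + 7) ^ 4 - 21 * (t + 7) ^ 3 - 33 * (t + 7) ^ 2 + 109 * (t + 7) - 77 with hc2
  set c3 := 4 * (t + 7) * ((t + 7) - 1) * ((t + 7) ^ 2 - 9) with hc3
  have hid : (2 * (t + 7) ^ 3 + (t + 7) ^ 2 + 1) * (2 + ((t + 7) - 5) * x ^ 2) -
      4 * ((t + 7) - 1) * ((t + 7) ^ 2 - 9) * ((1 + x) * (1 + 2 * x - (t + 7) * x ^ 2)) =
      c0 - c1 * x + c2 * x ^ 2 + c3 * x ^ 3 := by
    rw [hc0, hc1, hc2, hc3]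
    ring
  have h0 : 0 < c0 := by
    rw [hc0]; nlinarith
  have h1 : 0 < c1 := by
    have e : c1 = 12 * (t + 6) * (t ^ 2 + 14 * t + 40) := by rw [hc1]; ring
    rw [e]; positivity
  have h3 : 0 < c3 := by
    have e : c3 = 4 * (t + 7) * (t + 6) * (t ^ 2 + 14 * t + 40) := by rw [hc3]; ring
    rw [e]; positivity
  have h2 : 0 < c2 := by
    have e : c2 = 6 * t ^ 4 + 147 * t ^ 3 + 1290 * t ^ 2 + 4792 * t + 6272 := by rw [hc2]; ring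
    rw [e]; positivity
  have h23 : 0 < c2 - c3 / 2 := by
    have e : c2 - c3 / 2 = 4 * t ^ 4 + 93 * t ^ 3 + 762 * t ^ 2 + 2576 * t + 2912 := by
      rw [hc2, hc3]; ring
    rw [e]; positivity
  have hdisc : 0 < 4 * c0 * c2 - c1 ^ 2 := by
    have e : 4 * c0 * c2 - c1 ^ 2 = 648 * t ^ 5 + 20496 * t ^ 4 + 251904 * t ^ 3 + 1496064 * t ^ 2
        + 4253696 * t + 4550656 := by
      rw [hc0, hc1, hc2]; ring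
    rw [e]; positivity
  have hmain : 0 < c0 - c1 * x + c2 * x ^ 2 + c3 * x ^ 3 := by
    rcases le_total 0 x with hx0 | hx0
    · have hq : 0 < c0 - c1 * x + c2 * x ^ 2 := by
        have h4 : 0 < 4 * c2 * (c0 - c1 * x + c2 * x ^ 2) := by
          have e : 4 * c2 * (c0 - c1 * x + c2 * x ^ 2) =
              (2 * c2 * x - c1) ^ 2 + (4 * c0 * c2 - c1 ^ 2) := by ring
          rw [e]
          positivity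
        have h5 : 0 < 4 * c2 := by positivity
        exact (pos_iff_pos_of_mul_pos h4).1 h5
      have h6 : 0 ≤ c3 * x ^ 3 := by positivity
      linarith
    · have hx5 : -1/2 ≤ x := by nlinarith [sq_nonneg x]
      have h6 : 0 ≤ -(c1 * x) := by nlinarith
      have h7 : 0 ≤ (c2 + c3 * x) * x ^ 2 := by
        apply mul_nonneg _ (sq_nonneg x)
        nlinarith
      nlinarith
  linarith

end Pool.Agent.R571.TI
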