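import Pool.Agent.R571.TI.Lobe

/-! The sharp Turán type inequality for the second derivative, odd degree. -/

namespace Pool.Agent.R571.TI

open Polynomial

/-- the maximum norm on `[-1,1]` -/
noncomputable def nrm (P : ℝ[X]) : ℝ := sSup ((fun x => |P.eval x|) '' Set.Icc (-1) 1)

lemma nrm_spec (P : ℝ[X]) : ∃ x ∈ Set.Icc (-1:ℝ) 1, nrm P = |P.eval x| ∧
    ∀ y ∈ Set.Icc (-1:ℝ) 1, |P.eval y| ≤ nrm P := by
  obtain ⟨x, hx, hmax⟩ := isCompact_Icc.exists_isMaxOn (Set.nonempty_Icc.2 (by norm_num : (-1:ℝ) ≤ 1))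
    (f := fun x => |P.eval x|) (by fun_prop)
  have hg : IsGreatest ((fun x => |P.eval x|) '' Set.Icc (-1:ℝ) 1) |P.eval x| := by
    refine ⟨⟨x, hx, rfl⟩, ?_⟩
    rintro _ ⟨y, hy, rfl⟩
    exact hmax hy
  have he : nrm P = |P.eval x| := hg.csSup_eq
  exact ⟨x, hx, he, fun y hy => by rw [he]; exact hmax hy⟩

lemma le_nrm (P : ℝ[X]) {y : ℝ} (hy : y ∈ Set.Icc (-1:ℝ) 1) : |P.eval y| ≤ nrm P := by
  obtain ⟨x, -, -, h⟩ := nrm_spec P
  exact h y hy

lemma nrm_nonneg (P : ℝ[X]) : 0 ≤ nrm P := by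
  obtain ⟨x, -, h, -⟩ := nrm_spec P
  rw [h]
  exact abs_nonneg _

lemma nrm_pos {P : ℝ[X]} (hP : P ≠ 0) : 0 < nrm P := by
  rcases (nrm_nonneg P).lt_or_eq with h | h
  · exact h
  · exfalso
    apply hP
    apply Polynomial.eq_zero_of_infinite_isRoot
    refine Set.Infinite.mono ?_ (Set.Icc_infinite (by norm_num : (-1:ℝ) < 1))
    intro x hx
    have := le_nrm P hx
    rw [← h] at this
    exact abs_nonpos_iff.1 this

lemma nrm_C_mul (c : ℝ) (P : ℝ[X]) : nrm (C c * P) = |c| * nrm P := by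
  obtain ⟨x, hx, h1, h2⟩ := nrm_spec P
  obtain ⟨y, hy, h3, h4⟩ := nrm_spec (C c * P)
  rw [eval_mul, eval_C, abs_mul] at h3
  apply le_antisymm
  · rw [h3]
    exact mul_le_mul_of_nonneg_left (h2 y hy) (abs_nonneg _)
  · rw [h1]
    have := h4 x hx
    rwa [eval_mul, eval_C, abs_mul] at this

lemma nrm_comp_neg (P : ℝ[X]) : nrm (P.comp (-X)) = nrm P := by
  have key : ∀ P : ℝ[X], nrm P ≤ nrm (P.comp (-X)) := by
    intro P
    obtain ⟨x, hx, h1, -⟩ := nrm_spec P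
    rw [h1]
    have := le_nrm (P.comp (-X)) (y := -x) ⟨by linarith [hx.2], by linarith [hx.1]⟩
    rwa [eval_comp, eval_neg, eval_X, neg_neg] at this
  apply le_antisymm _ (key P)
  have := key (P.comp (-X))
  rwa [comp_assoc, neg_comp, X_comp, neg_neg, comp_X] at this

/-- `Q_m = (1 - x)^m (1 + x)^(m+1)` -/
noncomputable def Qp (m : ℕ) : ℝ[X] := (1 - X) ^ m * (1 + X) ^ (m + 1)

lemma Qp_eval (m : ℕ) (x : ℝ) : (Qp m).eval x = (1 - x) ^ m * (1 + x) ^ (m + 1) := by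
  simp [Qp]

lemma Qp_der1 (j : ℕ) : derivative (Qp (j + 2)) =
    (1 - X) ^ (j + 1) * (1 + X) ^ (j + 2) * (1 - C (2 * (j:ℝ) + 5) * X) := by
  unfold Qp
  have e1 : j + 2 + 1 = (j + 2) + 1 := rfl
  rw [derivative_mul, show j + 2 = (j + 1) + 1 from rfl, derivative_pow_succ,
    show j + 1 + 1 + 1 = (j + 2) + 1 from rfl, derivative_pow_succ]
  simp only [derivative_sub, derivative_add, derivative_one, derivative_X, map_add, map_mul,
    Nat.cast_add, Nat.cast_one, Nat.cast_ofNat, C_1, map_ofNat, map_natCast, map_one]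
  ring

lemma Qp_der2 (j : ℕ) : derivative (derivative (Qp (j + 2))) =
    -(C (2 * (j:ℝ) + 4) * (1 - X) ^ j * (1 + X) ^ (j + 1) *
      (1 + 2 * X - C (2 * (j:ℝ) + 5) * X ^ 2)) := by
  rw [Qp_der1, derivative_mul, derivative_mul, derivative_pow_succ, show j + 2 = (j + 1) + 1 from rfl,
    derivative_pow_succ]
  simp only [derivative_sub, derivative_add, derivative_one, derivative_X, map_add, map_mul,
    Nat.cast_add, Nat.cast_one, Nat.cast_ofNat, C_1, map_ofNat, map_natCast, map_one,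
    derivative_mul, derivative_ofNat, derivative_natCast]
  ring

lemma Qp_der2_eval (j : ℕ) (x : ℝ) : (derivative (derivative (Qp (j + 2)))).eval x =
    -((2 * j + 4) * (1 - x) ^ j * (1 + x) ^ (j + 1) * (1 + 2 * x - (2 * j + 5) * x ^ 2)) := by
  rw [Qp_der2]
  simp

section Q

variable (j : ℕ)

/-- the value at the maximum point -/
noncomputable def q0 : ℝ := (Qp (j + 2)).eval (1 / (2 * j + 5))

lemma q0_pos : 0 < q0 j := by
  unfold q0
  rw [Qp_eval]
  have h1 : (0:ℝ) < 1 / (2 * j + 5) := by positivity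
  have h2 : (1:ℝ) / (2 * j + 5) < 1 := by
    rw [div_lt_one (by positivity)]
    have : (0:ℝ) ≤ j := Nat.cast_nonneg j
    linarith
  have h3 : 0 < 1 - (1:ℝ) / (2 * j + 5) := by linarith
  positivity

lemma q0_ge : (2 * (2 * (j:ℝ) + 5) ^ 3 + (2 * j + 5) ^ 2 + 1) ≤ 2 * (2 * j + 5) ^ 3 * q0 j := by
  have hj : (0:ℝ) ≤ j := Nat.cast_nonneg j
  set n : ℝ := 2 * j + 5 with hn
  have hn5 : 5 ≤ n := by linarith
  have hq : q0 j = (1 - 1 / n ^ 2) ^ (j + 2) * (1 + 1 / n) := by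
    unfold q0
    rw [Qp_eval, ← hn]
    have e : 1 - 1 / n ^ 2 = (1 - 1 / n) * (1 + 1 / n) := by field_simp; ring
    rw [e, mul_pow]
    ring
  have hb := one_add_mul_le_pow (a := -(1 / n ^ 2)) (by
    have : 1 / n ^ 2 ≤ 1 := by
      rw [div_le_one (by positivity)]
      nlinarith
    linarith) (j + 2)
  push_cast at hb
  rw [← sub_eq_add_neg] at hb
  rw [hq]
  have h1 : (1 + ((j:ℝ) + 2) * -(1 / n ^ 2)) * (1 + 1 / n) ≤
      (1 - 1 / n ^ 2) ^ (j + 2) * (1 + 1 / n) :=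
    mul_le_mul_of_nonneg_right hb (by positivity)
  have h2 := mul_le_mul_of_nonneg_left h1 (by positivity : (0:ℝ) ≤ 2 * n ^ 3)
  refine le_trans (le_of_eq ?_) h2
  have hj2 : (j:ℝ) + 2 = (n - 1) / 2 := by rw [hn]; ring
  rw [hj2]
  field_simp
  ring

lemma Q2_at : -(derivative (derivative (Qp (j + 2)))).eval (1 / (2 * (j:ℝ) + 5)) *
    ((2 * j + 5) ^ 2 - 1) = (2 * j + 5) ^ 3 * q0 j := by
  unfold q0
  rw [Qp_der2_eval, Qp_eval]
  have hj : (0:ℝ) ≤ j := Nat.cast_nonneg j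
  set n : ℝ := 2 * j + 5 with hn
  have hn5 : 5 ≤ n := by linarith
  have e1 : 2 * (j:ℝ) + 4 = n - 1 := by rw [hn]; ring
  rw [e1]
  have e2 : (1 - 1 / n) ^ (j + 2) = (1 - 1 / n) ^ j * (1 - 1 / n) ^ 2 := pow_add _ _ _
  have e3 : (1 + 1 / n) ^ (j + 2 + 1) = (1 + 1 / n) ^ (j + 1) * (1 + 1 / n) ^ 2 := by
    rw [show j + 2 + 1 = (j + 1) + 2 from rfl, pow_add]
  rw [e2, e3]
  set A := (1 - 1 / n) ^ j
  set B := (1 + 1 / n) ^ (j + 1)
  field_simp
  ring

lemma Q2_form (x : ℝ) : (1 - x) ^ j * (1 + x) ^ (j + 1) = (1 - x ^ 2) ^ j * (1 + x) := by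
  have e : 1 - x ^ 2 = (1 - x) * (1 + x) := by ring
  rw [e, mul_pow, pow_succ]
  ring

/-- main lobe -/
lemma A_lt (hj : 1 ≤ j) {x : ℝ} (h1 : -1 ≤ x) (h2 : x ≤ 1) :
    -(derivative (derivative (Qp (j + 2)))).eval x * ((2 * j + 5) ^ 2 - 9) <
      (2 * j + 5) ^ 3 * q0 j := by
  have hj' : (1:ℝ) ≤ j := by exact_mod_cast hj
  rw [Qp_der2_eval]
  have hq := q0_ge j
  have hq0 := q0_pos j
  have hx2 : x ^ 2 ≤ 1 := by nlinarith
  set n : ℝ := 2 * j + 5 with hn
  have hn7 : 7 ≤ n := by linarith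
  have e1 : 2 * (j:ℝ) + 4 = n - 1 := by rw [hn]; ring
  have hform := Q2_form j x
  set E := (1 - x ^ 2) ^ j with hE
  have hE0 : 0 ≤ E := pow_nonneg (by linarith) _
  have hlhs : - -((2 * (j:ℝ) + 4) * (1 - x) ^ j * (1 + x) ^ (j + 1) *
      (1 + 2 * x - n * x ^ 2)) * (n ^ 2 - 9) =
      (n - 1) * (n ^ 2 - 9) * ((1 + x) * (1 + 2 * x - n * x ^ 2)) * E := by
    rw [e1]
    linear_combination (n - 1) * (n ^ 2 - 9) * (1 + 2 * x - n * x ^ 2) * hform
  rw [hlhs]
  have hRpos : 0 < n ^ 3 * q0 j := by positivity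
  by_cases hs : 1 + 2 * x - n * x ^ 2 ≤ 0
  · have h3 : (1 + x) * (1 + 2 * x - n * x ^ 2) ≤ 0 :=
      mul_nonpos_of_nonneg_of_nonpos (by linarith) hs
    have h4 : 0 ≤ (n - 1) * (n ^ 2 - 9) := mul_nonneg (by linarith) (by nlinarith)
    have h5 : (n - 1) * (n ^ 2 - 9) * ((1 + x) * (1 + 2 * x - n * x ^ 2)) * E ≤ 0 :=
      mul_nonpos_of_nonpos_of_nonneg (mul_nonpos_of_nonneg_of_nonpos h4 h3) hE0
    linarith
  · push Not at hs
    have hF := F_pos n x hn7 hs
    rcases hE0.lt_or_eq with hEp | hEz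
    · have h3 := mul_lt_mul_of_pos_right hF hEp
      have hW := pow_W j (x ^ 2) (sq_nonneg x) hx2
      have hW2 : E * (1 + j * x ^ 2) ≤ 1 := by
        refine le_trans ?_ hW
        apply mul_le_mul_of_nonneg_left _ hE0
        have : 0 ≤ (j:ℝ) * (j + 1) / 2 * (x ^ 2) ^ 2 + j * (j + 1) * (j + 2) / 6 * (x ^ 2) ^ 3 := by
          positivity
        linarith
      have h4 : (2 * n ^ 3 + n ^ 2 + 1) * (2 + (n - 5) * x ^ 2) * E =
          2 * (2 * n ^ 3 + n ^ 2 + 1) * (E * (1 + j * x ^ 2)) := by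
        have : (j:ℝ) = (n - 5) / 2 := by rw [hn]; ring
        rw [this]
        ring
      have h5 : 2 * (2 * n ^ 3 + n ^ 2 + 1) * (E * (1 + j * x ^ 2)) ≤
          2 * (2 * n ^ 3 + n ^ 2 + 1) * 1 :=
        mul_le_mul_of_nonneg_left hW2 (by positivity)
      nlinarith
    · rw [← hEz, mul_zero]
      exact hRpos

/-- side lobes -/
lemma B_le (hj : 1 ≤ j) {x : ℝ} (h1 : -1 ≤ x) (h2 : x ≤ 1) :
    (derivative (derivative (Qp (j + 2)))).eval x * ((2 * j + 5) ^ 2 - 1) ≤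
      (2 * j + 5) ^ 3 * q0 j := by
  have hj' : (1:ℝ) ≤ j := by exact_mod_cast hj
  rw [Qp_der2_eval]
  have hq := q0_ge j
  have hG := G_le j hj x h1 h2
  have hform := Q2_form j x
  set n : ℝ := 2 * j + 5 with hn
  have hn7 : 7 ≤ n := by linarith
  have e1 : 2 * (j:ℝ) + 4 = n - 1 := by rw [hn]; ring
  have hden : 0 < 2 * (n ^ 2 - 1) * (n - 1) := by
    have : 0 < n ^ 2 - 1 := by nlinarith
    have : 0 < n - 1 := by linarith
    positivity
  rw [le_div_iff₀ hden] at hG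
  have hlhs : -((2 * (j:ℝ) + 4) * (1 - x) ^ j * (1 + x) ^ (j + 1) *
      (1 + 2 * x - n * x ^ 2)) * (n ^ 2 - 1) =
      ((1 - x ^ 2) ^ j * (1 + x) * (n * x ^ 2 - 2 * x - 1)) * (2 * (n ^ 2 - 1) * (n - 1)) / 2 := by
    rw [e1]
    linear_combination -(n - 1) * (n ^ 2 - 1) * (1 + 2 * x - n * x ^ 2) * hform
  rw [hlhs]
  linarith

lemma exists_xh (hj : 1 ≤ j) : ∃ x : ℝ, -1 < x ∧ x < 1 ∧
    nrm (derivative (derivative (Qp (j + 2)))) =
      -(derivative (derivative (Qp (j + 2)))).eval x ∧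
    0 ≤ 1 + 2 * x - (2 * j + 5) * x ^ 2 := by
  have hj' : (1:ℝ) ≤ j := by exact_mod_cast hj
  have hn7 : (7:ℝ) ≤ 2 * j + 5 := by linarith
  have hx0 : (0:ℝ) < 1 / (2 * j + 5) := by positivity
  have hx1 : (1:ℝ) / (2 * j + 5) < 1 := by
    rw [div_lt_one (by positivity)]
    linarith
  obtain ⟨x, hx, h1, h2⟩ := nrm_spec (derivative (derivative (Qp (j + 2))))
  have hat := Q2_at j
  have hq0 := q0_pos j
  have hn1 : (0:ℝ) < (2 * j + 5) ^ 2 - 1 := by nlinarith
  have hatpos : 0 < -(derivative (derivative (Qp (j + 2)))).eval (1 / (2 * (j:ℝ) + 5)) := by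
    have h3 : 0 < (2 * (j:ℝ) + 5) ^ 3 * q0 j := by positivity
    rw [← hat] at h3
    exact (pos_iff_pos_of_mul_pos h3).2 hn1
  have hpos0 : 0 ≤ 1 + 2 * (1 / (2 * (j:ℝ) + 5)) - (2 * j + 5) * (1 / (2 * j + 5)) ^ 2 := by
    have e : (2 * (j:ℝ) + 5) * (1 / (2 * j + 5)) ^ 2 = 1 / (2 * j + 5) := by field_simp
    rw [e]
    linarith
  by_cases hgood : (-1 < x ∧ x < 1) ∧ 0 ≤ 1 + 2 * x - (2 * j + 5) * x ^ 2
  · refine ⟨x, hgood.1.1, hgood.1.2, ?_, hgood.2⟩
    rw [h1, abs_of_nonpos]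
    rw [Qp_der2_eval]
    have h3 : 0 < 1 - x := by linarith [hgood.1.2]
    have h4 : 0 < 1 + x := by linarith [hgood.1.1]
    have h5 := hgood.2
    have : 0 ≤ (2 * (j:ℝ) + 4) * (1 - x) ^ j * (1 + x) ^ (j + 1) *
        (1 + 2 * x - (2 * j + 5) * x ^ 2) := by positivity
    linarith
  · refine ⟨1 / (2 * j + 5), by linarith, hx1, ?_, hpos0⟩
    apply le_antisymm
    · rw [h1]
      by_cases hend : -1 < x ∧ x < 1
      · have hneg : 1 + 2 * x - (2 * j + 5) * x ^ 2 < 0 := by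
          by_contra hc
          push Not at hc
          exact hgood ⟨hend, hc⟩
        have h3 : 0 < 1 - x := by linarith [hend.2]
        have h4 : 0 < 1 + x := by linarith [hend.1]
        rw [abs_of_nonneg]
        · have h5 := B_le j hj hx.1 hx.2
          rw [← hat] at h5
          exact le_of_mul_le_mul_right h5 hn1
        · rw [Qp_der2_eval]
          have h6 : 0 ≤ (2 * (j:ℝ) + 4) * (1 - x) ^ j * (1 + x) ^ (j + 1) := by positivity
          have := mul_nonpos_of_nonneg_of_nonpos h6 hneg.le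
          linarith
      · have hz : (derivative (derivative (Qp (j + 2)))).eval x = 0 := by
          rw [Qp_der2_eval]
          have h3 : x = -1 ∨ x = 1 := by
            by_contra hc
            push Not at hc
            exact hend ⟨lt_of_le_of_ne hx.1 hc.1.symm, lt_of_le_of_ne hx.2 hc.2⟩
          rcases h3 with rfl | rfl
          · simp
          · rw [sub_self, zero_pow (by omega)]
            simp
        rw [hz, abs_zero]
        exact hatpos.le
    · have h3 := h2 (1 / (2 * j + 5)) ⟨by linarith, hx1.le⟩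
      have h4 := neg_le_abs ((derivative (derivative (Qp (j + 2)))).eval (1 / (2 * (j:ℝ) + 5)))
      linarith

lemma nrmQ2_lt (hj : 1 ≤ j) : nrm (derivative (derivative (Qp (j + 2)))) *
    ((2 * j + 5) ^ 2 - 9) < (2 * j + 5) ^ 3 * nrm (Qp (j + 2)) := by
  obtain ⟨x, hx1, hx2, h1, -⟩ := exists_xh j hj
  rw [h1]
  refine lt_of_lt_of_le (A_lt j hj hx1.le hx2.le) ?_
  apply mul_le_mul_of_nonneg_left _ (by positivity)
  have hx0 : (0:ℝ) < 1 / (2 * j + 5) := by positivity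
  have hx3 : (1:ℝ) / (2 * j + 5) ≤ 1 := by
    rw [div_le_one (by positivity)]
    have : (0:ℝ) ≤ j := Nat.cast_nonneg j
    linarith
  exact (le_abs_self _).trans (le_nrm (Qp (j + 2)) (y := 1 / (2 * j + 5)) ⟨by linarith, hx3⟩)

end Q

/-! ### the comparison in terms of `exp (lp a b x)` -/

lemma exp_lp (a b : ℕ) {x : ℝ} (h1 : -1 < x) (h2 : x < 1) :
    Real.exp (lp a b x) = (1 + x) ^ a * (1 - x) ^ b := by
  unfold lp
  rw [Real.exp_add, Real.exp_nat_mul, Real.exp_nat_mul, Real.exp_log (by linarith),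
    Real.exp_log (by linarith)]

lemma Q2_lp (j : ℕ) {x : ℝ} (h1 : -1 < x) (h2 : x < 1) :
    -(derivative (derivative (Qp (j + 2)))).eval x =
      Real.exp (lp ((j + 3 : ℕ) : ℝ) ((j + 2 : ℕ) : ℝ) x) *
        (tp ((j + 3 : ℕ) : ℝ) ((j + 2 : ℕ) : ℝ) x -
          sp ((j + 3 : ℕ) : ℝ) ((j + 2 : ℕ) : ℝ) x ^ 2) := by
  rw [exp_lp _ _ h1 h2, Qp_der2_eval]
  have h3 : 1 + x ≠ 0 := by linarith
  have h4 : 1 - x ≠ 0 := by linarith
  unfold tp sp
  push_cast
  have e2 : (1 + x) ^ (j + 3) = (1 + x) ^ (j + 1) * (1 + x) ^ 2 := pow_add _ (j + 1) 2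
  have e3 : (1 - x) ^ (j + 2) = (1 - x) ^ j * (1 - x) ^ 2 := pow_add _ j 2
  rw [e2, e3]
  set A := (1 + x) ^ (j + 1)
  set B := (1 - x) ^ j
  field_simp
  ring

lemma lp_neg (a b x : ℝ) : lp a b (-x) = lp b a x := by
  unfold lp
  rw [sub_neg_eq_add, ← sub_eq_add_neg]
  ring

lemma sp_neg (a b x : ℝ) : sp a b (-x) = -sp b a x := by
  unfold sp
  rw [sub_neg_eq_add, ← sub_eq_add_neg]
  ring

lemma tp_neg (a b x : ℝ) : tp a b (-x) = tp b a x := by
  unfold tp
  rw [sub_neg_eq_add, ← sub_eq_add_neg]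
  ring

lemma XX_zero {a b : ℝ} (ha : 0 < a) (hb : 0 < b) : XX a b 0 = (a - b) / (a + b) := by
  unfold XX
  have e : (a + b) ^ 2 + 4 * (0:ℝ) ^ 2 - 4 * 0 * (a - b) = (a + b) ^ 2 := by ring
  rw [e, Real.sqrt_sq (by linarith), sub_zero, ← two_mul, mul_div_mul_left _ _ two_ne_zero]

/-- the key comparison -/
lemma Conf.key {L R : Multiset ℝ} {x₀ : ℝ} (h : Conf L R x₀) {c : ℝ} (hc : c ≠ 0)
    (hnrm : nrm (C c * pp (L + R)) = |(C c * pp (L + R)).eval x₀|) {xh : ℝ} (h1 : -1 < xh)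
    (h2 : xh < 1)
    (hV : 0 ≤ tp (Multiset.card L) (Multiset.card R) xh -
      sp (Multiset.card L) (Multiset.card R) xh ^ 2) :
    nrm (C c * pp (L + R)) * (Real.exp (lp (Multiset.card L) (Multiset.card R) xh) *
      (tp (Multiset.card L) (Multiset.card R) xh -
        sp (Multiset.card L) (Multiset.card R) xh ^ 2)) ≤
      nrm (derivative (derivative (C c * pp (L + R)))) *
        Real.exp (lp (Multiset.card L) (Multiset.card R)
          (XX (Multiset.card L) (Multiset.card R) 0)) ∧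
    (nrm (derivative (derivative (C c * pp (L + R)))) *
        Real.exp (lp (Multiset.card L) (Multiset.card R)
          (XX (Multiset.card L) (Multiset.card R) 0)) ≤
      nrm (C c * pp (L + R)) * (Real.exp (lp (Multiset.card L) (Multiset.card R) xh) *
      (tp (Multiset.card L) (Multiset.card R) xh -
        sp (Multiset.card L) (Multiset.card R) xh ^ 2)) →
      (∀ r ∈ L, r = -1) ∧ ∀ r ∈ R, r = 1) := by
  obtain ⟨y, hy, hys, hcmp⟩ := h.step3 h1 h2
  obtain ⟨hT, hTe⟩ := h.cmp hy h1 h2 hys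
  obtain ⟨hy1, hy2⟩ := h.mem hy
  have h4 := le_nrm (derivative (derivative (C c * pp (L + R)))) (y := y) ⟨hy1.le, hy2.le⟩
  have h5 : (derivative (derivative (C c * pp (L + R)))).eval y =
      c * (pf (L + R) y * (S1 (L + R) y ^ 2 - S2 (L + R) y)) := by
    rw [derivative_C_mul, derivative_C_mul, eval_mul, eval_C, eval_der2 hy.ne]
  rw [h5, hys, abs_mul, abs_mul] at h4
  rw [hnrm, eval_mul, eval_C, eval_pp, abs_mul]
  set a : ℝ := (Multiset.card L : ℝ) with ha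
  set b : ℝ := (Multiset.card R : ℝ) with hb
  set T := S2 (L + R) y with hTdef
  set q0' := Real.exp (lp a b (XX a b 0)) with hq0'
  have hq0p : 0 < q0' := Real.exp_pos _
  have habs : T - sp a b xh ^ 2 ≤ |sp a b xh ^ 2 - T| := by
    rw [abs_sub_comm]
    exact le_abs_self _
  have hcp : 0 < |c| := abs_pos.2 hc
  have hpy : 0 < |pf (L + R) y| := abs_pos.2 (pf_ne_zero hy.ne)
  -- chain
  have hA : |c| * |pf (L + R) x₀| * (Real.exp (lp a b xh) * (tp a b xh - sp a b xh ^ 2)) ≤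
      |c| * (|pf (L + R) y| * q0') * (tp a b xh - sp a b xh ^ 2) := by
    have h6 := mul_le_mul_of_nonneg_right hcmp hV
    have h7 := mul_le_mul_of_nonneg_left h6 hcp.le
    calc _ = |c| * (|pf (L + R) x₀| * Real.exp (lp a b xh) * (tp a b xh - sp a b xh ^ 2)) := by
          ring
      _ ≤ _ := h7
      _ = _ := by ring
  have hB : |c| * (|pf (L + R) y| * q0') * (T - sp a b xh ^ 2) ≤
      nrm (derivative (derivative (C c * pp (L + R)))) * q0' := by
    have h6 : |c| * (|pf (L + R) y| * (T - sp a b xh ^ 2)) ≤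
        nrm (derivative (derivative (C c * pp (L + R)))) := by
      refine le_trans ?_ h4
      exact mul_le_mul_of_nonneg_left (mul_le_mul_of_nonneg_left habs hpy.le) hcp.le
    have h7 := mul_le_mul_of_nonneg_right h6 hq0p.le
    calc _ = |c| * (|pf (L + R) y| * (T - sp a b xh ^ 2)) * q0' := by ring
      _ ≤ _ := h7
  have hpos : 0 < |c| * (|pf (L + R) y| * q0') := by positivity
  refine ⟨?_, fun hle => ?_⟩
  · refine hA.trans (le_trans ?_ hB)
    apply mul_le_mul_of_nonneg_left _ hpos.le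
    linarith
  · apply hTe
    have h8 : |c| * (|pf (L + R) y| * q0') * (T - sp a b xh ^ 2) ≤
        |c| * (|pf (L + R) y| * q0') * (tp a b xh - sp a b xh ^ 2) := by linarith
    have h9 := le_of_mul_le_mul_left h8 hpos
    linarith

/-- `T` at the maximum point -/
lemma Conf.at_max {L R : Multiset ℝ} {x₀ : ℝ} (h : Conf L R x₀) :
    ((Multiset.card L : ℝ) + Multiset.card R) ^ 3 ≤
      4 * Multiset.card L * Multiset.card R * S2 (L + R) x₀ := by
  have ha := h.ca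
  have hb := h.cb
  obtain ⟨hx1, hx2⟩ := XX_mem ha hb 0
  have h1 := (h.cmp h.inJ hx1 hx2 (by rw [h.crit, sp_XX ha hb])).1
  rw [XX_zero ha hb] at h1
  set a : ℝ := (Multiset.card L : ℝ)
  set b : ℝ := (Multiset.card R : ℝ)
  have e : tp a b ((a - b) / (a + b)) = (a + b) ^ 3 / (4 * a * b) := by
    unfold tp
    have h3 : 1 + (a - b) / (a + b) = 2 * a / (a + b) := by field_simp; ring
    have h4 : 1 - (a - b) / (a + b) = 2 * b / (a + b) := by field_simp; ring
    rw [h3, h4]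
    field_simp
    ring
  rw [e, div_le_iff₀ (by positivity)] at h1
  linarith

/-- endpoints -/
lemma end_bound {R : Multiset ℝ} {x : ℝ} (h : ∀ r ∈ R, 1 / 2 ≤ (x - r)⁻¹) :
    (Multiset.card R : ℝ) / 2 ≤ S1 R x ∧
      (Multiset.card R : ℝ) * (Multiset.card R - 1) / 4 ≤ S1 R x ^ 2 - S2 R x := by
  induction R using Multiset.induction with
  | empty => simp [S1_zero, S2_zero]
  | cons a R ih =>
    obtain ⟨h1, h2⟩ := ih fun r hr => h r (Multiset.mem_cons_of_mem hr)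
    have h3 := h a (Multiset.mem_cons_self a R)
    rw [S1_cons, S2_cons, Multiset.card_cons]
    push_cast
    have h4 : (0:ℝ) ≤ Multiset.card R := Nat.cast_nonneg _
    refine ⟨by linarith, ?_⟩
    nlinarith [mul_le_mul h3 h1 (by positivity) (by linarith : 0 ≤ (x - a)⁻¹)]

lemma end_bound' {R : Multiset ℝ} {x : ℝ} (h : ∀ r ∈ R, (x - r)⁻¹ ≤ -(1 / 2)) :
    S1 R x ≤ -((Multiset.card R : ℝ) / 2) ∧
      (Multiset.card R : ℝ) * (Multiset.card R - 1) / 4 ≤ S1 R x ^ 2 - S2 R x := by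
  induction R using Multiset.induction with
  | empty => simp [S1_zero, S2_zero]
  | cons a R ih =>
    obtain ⟨h1, h2⟩ := ih fun r hr => h r (Multiset.mem_cons_of_mem hr)
    have h3 := h a (Multiset.mem_cons_self a R)
    rw [S1_cons, S2_cons, Multiset.card_cons]
    push_cast
    have h4 : (0:ℝ) ≤ Multiset.card R := Nat.cast_nonneg _
    refine ⟨by linarith, ?_⟩
    have h5 : 1 / 2 * ((Multiset.card R : ℝ) / 2) ≤ (-(x - a)⁻¹) * (-S1 R x) :=
      mul_le_mul (by linarith) (by linarith) (by positivity) (by linarith)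
    nlinarith

end Pool.Agent.R571.TI
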